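import Pool.Agent.Y722.EP.Link
import Pool.Agent.W353.NF.Ineq

/-! Bessel's inequality for several extensions with the same group. -/

set_option autoImplicit false

namespace Pool.Agent.Y149.WR

open Complex Filter Topology ComplexConjugate NumberField IsDedekindDomain
open Pool.Agent.W540.BE Pool.Agent.W353.L1 Pool.Agent.W401.Cheb
open Pool.Agent.H341R2 (lam lam_tendsto)

section
variable {K : Type} [Field K] [NumberField K]

/-- Chebotarev's theorem for a homomorphism onto a finite group -/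
theorem cheb_hom {H : Type*} [Group H] [Fintype H] (Φ : GK K →* H)
    (hΦ : IsOpen (Φ.ker : Set (GK K))) (hs : Function.Surjective Φ) (F : H → ℝ)
    (hF : ∀ a g, F (g * a * g⁻¹) = F a)
    (σ : HeightOneSpectrum (𝓞 K) → GK K) (hσ : ∀ v, IsFrob v (σ v)) :
    Tendsto (fun ε : ℝ => (EP (nm K) ε fun v => F (Φ (σ v))) / lam ε) (𝓝[>] 0)
      (𝓝 ((Fintype.card H : ℝ)⁻¹ * ∑ h, F h)) := by
  classical
  have e := QuotientGroup.quotientKerEquivOfSurjective Φ hs
  have hfin : Finite (GK K ⧸ Φ.ker) := Finite.of_equiv _ e.symm.toEquiv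
  set ψ : GK K ⧸ Φ.ker → ℝ := fun q => F (QuotientGroup.kerLift Φ q) with hψ
  have hav : avR Φ.ker ψ = (Fintype.card H : ℝ)⁻¹ * ∑ h, F h := by
    unfold avR
    have hbij : Function.Bijective (QuotientGroup.kerLift Φ) :=
      ⟨QuotientGroup.kerLift_injective Φ, fun h => by
        obtain ⟨g, hg⟩ := hs h
        exact ⟨QuotientGroup.mk g, hg⟩⟩
    rw [Nat.card_eq_of_bijective _ hbij, Nat.card_eq_fintype_card]
    congr 1
    rw [← finsum_eq_sum_of_fintype]
    exact finsum_eq_of_bijective (QuotientGroup.kerLift Φ) hbij fun q => rfl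
  have h1 := cheb_edge Φ.ker hΦ (fun q => ((ψ q : ℝ) : ℂ)) (fun a g => by
    rw [hψ]
    simp only
    rw [map_mul, map_mul, map_inv, hF]) _ (by rw [avC_ofReal, hav]) σ hσ 0
  rw [if_pos rfl] at h1
  refine h1.congr fun ε => ?_
  congr 2
  funext v
  have e1 : ((nm K v : ℕ) : ℂ) ^ (-(((0 : ℝ) : ℂ) * I)) = 1 := by simp
  rw [e1, mul_one, Complex.ofReal_re]
  rfl

/-- the same for two homomorphisms -/
theorem cheb_pair {H : Type*} [Group H] [Fintype H] (φ φ' : GK K →* H)
    (ho : IsOpen (φ.ker : Set (GK K))) (ho' : IsOpen (φ'.ker : Set (GK K)))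
    (hs : Function.Surjective φ) (hs' : Function.Surjective φ') (hd : φ.ker ⊔ φ'.ker = ⊤)
    (f f' : H → ℝ) (hf : ∀ a g, f (g * a * g⁻¹) = f a) (hf' : ∀ a g, f' (g * a * g⁻¹) = f' a)
    (σ : HeightOneSpectrum (𝓞 K) → GK K) (hσ : ∀ v, IsFrob v (σ v)) :
    Tendsto (fun ε : ℝ => (EP (nm K) ε fun v => f (φ (σ v)) * f' (φ' (σ v))) / lam ε) (𝓝[>] 0)
      (𝓝 (((Fintype.card H : ℝ)⁻¹ * ∑ h, f h) * ((Fintype.card H : ℝ)⁻¹ * ∑ h, f' h))) := by
  classical
  have hker : (φ.prod φ').ker = φ.ker ⊓ φ'.ker := by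
    ext g
    simp [MonoidHom.mem_ker, Prod.ext_iff]
  have h := cheb_hom (φ.prod φ') (by
      rw [hker, Subgroup.coe_inf]
      exact ho.inter ho') (by
      rintro ⟨a, b⟩
      obtain ⟨s, hsa⟩ := hs a
      obtain ⟨t, htb⟩ := hs' b
      have hmem : s⁻¹ * t ∈ φ.ker ⊔ φ'.ker := by
        rw [hd]
        exact Subgroup.mem_top _
      obtain ⟨u, hu, w, hw, huw⟩ := Subgroup.mem_sup_of_normal_left.1 hmem
      refine ⟨s * u, ?_⟩
      have hu' : φ u = 1 := hu
      have hw' : φ' w = 1 := hw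
      have e2 : s * u * w = t := by
        rw [mul_assoc, huw, mul_inv_cancel_left]
      have e3 : φ' (s * u) = b := by
        rw [← htb, ← e2, map_mul φ' (s * u) w, hw', mul_one]
      rw [MonoidHom.prod_apply, e3, map_mul, hu', mul_one, hsa])
    (fun p => f p.1 * f' p.2) (fun a g => by
      simp only [Prod.fst_mul, Prod.snd_mul, Prod.fst_inv, Prod.snd_inv]
      rw [hf, hf']) σ hσ
  refine h.congr' ?_ |>.trans (le_of_eq ?_)
  · exact Eventually.of_forall fun ε => rfl
  · congr 1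
    rw [Fintype.sum_prod_type, Fintype.card_prod]
    simp only
    rw [show (∑ x : H, ∑ y : H, f x * f' y) = (∑ h, f h) * ∑ h, f' h by
      rw [Finset.sum_mul_sum]]
    push_cast
    rw [mul_inv]
    ring

theorem exists_prime : Nonempty (HeightOneSpectrum (𝓞 K)) := by
  by_contra h
  have h0 : IsEmpty (HeightOneSpectrum (𝓞 K)) := not_nonempty_iff.1 h
  have h1 := EP_one K
  have h2 : ∀ ε : ℝ, (EP (nm K) ε fun _ => 1) / lam ε = 0 := by
    intro ε
    unfold EP
    rw [tsum_empty, zero_div]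
  rw [funext h2] at h1
  exact zero_ne_one (tendsto_nhds_unique tendsto_const_nhds h1)

end

section
variable {H : Type*} [Group H] [Fintype H]

open Classical in
/-- the weight of a conjugacy class -/
noncomputable def wt (c : ConjClasses H) : ℝ :=
  (Fintype.card H : ℝ)⁻¹ * ∑ a : H, if ConjClasses.mk a = c then 1 else 0

open Classical in
/-- the indicator function of a class minus its mean value -/
noncomputable def uc (c : ConjClasses H) (a : H) : ℝ :=
  (if ConjClasses.mk a = c then 1 else 0) - wt c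

theorem card_pos : (0 : ℝ) < Fintype.card H := by
  exact_mod_cast Fintype.card_pos

theorem wt_pos (c : ConjClasses H) : 0 < wt c := by
  classical
  unfold wt
  refine mul_pos (inv_pos.2 card_pos) ?_
  obtain ⟨a, ha⟩ := ConjClasses.exists_rep c
  refine lt_of_lt_of_le one_pos ?_
  have h := Finset.single_le_sum (f := fun b : H => if ConjClasses.mk b = c then (1 : ℝ) else 0)
    (fun b _ => by split_ifs <;> norm_num) (Finset.mem_univ a)
  simpa [ha] using h

theorem wt_le (c : ConjClasses H) : wt c ≤ 1 := by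
  classical
  unfold wt
  rw [inv_mul_le_iff₀ card_pos, mul_one]
  refine (Finset.sum_le_card_nsmul _ _ 1 fun b _ => ?_).trans ?_
  · split_ifs <;> norm_num
  · rw [nsmul_eq_mul, mul_one, Finset.card_univ]

theorem sum_wt [Fintype (ConjClasses H)] (f : ConjClasses H → ℝ) :
    ∑ c, wt c * f c = (Fintype.card H : ℝ)⁻¹ * ∑ a : H, f (ConjClasses.mk a) := by
  classical
  unfold wt
  have e : ∀ c : ConjClasses H, (Fintype.card H : ℝ)⁻¹ *
      (∑ a : H, if ConjClasses.mk a = c then (1 : ℝ) else 0) * f c =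
      (Fintype.card H : ℝ)⁻¹ * ∑ a : H, if ConjClasses.mk a = c then f c else 0 := by
    intro c
    rw [mul_assoc, Finset.sum_mul]
    congr 1
    refine Finset.sum_congr rfl fun a _ => ?_
    split_ifs <;> simp
  rw [Finset.sum_congr rfl fun c _ => e c, ← Finset.mul_sum, Finset.sum_comm]
  congr 1
  refine Finset.sum_congr rfl fun a _ => ?_
  rw [Finset.sum_ite_eq, if_pos (Finset.mem_univ _)]

theorem abs_uc (c : ConjClasses H) (a : H) : |uc c a| ≤ 1 := by
  classical
  have h1 := (wt_pos c).le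
  have h2 := wt_le c
  unfold uc
  rw [abs_le]
  split_ifs <;> constructor <;> linarith

theorem uc_conj (c : ConjClasses H) (a g : H) : uc c (g * a * g⁻¹) = uc c a := by
  classical
  unfold uc
  have : ConjClasses.mk (g * a * g⁻¹) = ConjClasses.mk a := by
    rw [ConjClasses.mk_eq_mk_iff_isConj, isConj_comm, isConj_iff]
    exact ⟨g, rfl⟩
  rw [this]

theorem mean_uc (c : ConjClasses H) : (Fintype.card H : ℝ)⁻¹ * ∑ a, uc c a = 0 := by
  classical
  unfold uc
  rw [Finset.sum_sub_distrib, mul_sub, Finset.sum_const, Finset.card_univ, nsmul_eq_mul,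
    ← mul_assoc, inv_mul_cancel₀ card_pos.ne', one_mul]
  exact sub_self _

theorem mean_uc_sq (c : ConjClasses H) :
    (Fintype.card H : ℝ)⁻¹ * ∑ a, uc c a * uc c a = wt c * (1 - wt c) := by
  classical
  have e : ∀ a : H, uc c a * uc c a = (if ConjClasses.mk a = c then 1 else 0) * (1 - 2 * wt c) +
      wt c ^ 2 := by
    intro a
    unfold uc
    split_ifs <;> ring
  rw [Finset.sum_congr rfl fun a _ => e a, Finset.sum_add_distrib, ← Finset.sum_mul, mul_add,
    Finset.sum_const, Finset.card_univ, nsmul_eq_mul, ← mul_assoc, ← mul_assoc,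
    inv_mul_cancel₀ card_pos.ne', one_mul]
  have e2 : (Fintype.card H : ℝ)⁻¹ * (∑ a : H, if ConjClasses.mk a = c then (1 : ℝ) else 0) =
      wt c := rfl
  rw [e2]
  ring

end

/-- from the bounded family of inequalities to the sum of the squares -/
theorem sq_of_gram {κ : Type*} (S : Finset κ) (y : κ → ℝ → ℝ) (b g : ℝ) (hg : 0 ≤ g) {C : ℝ}
    (hy : ∀ᶠ ε : ℝ in 𝓝[>] 0, ∀ k ∈ S, |y k ε| ≤ C)
    (h : ∀ η : ℝ, 0 < η → ∀ᶠ ε : ℝ in 𝓝[>] 0, ∀ c : κ → ℝ, (∀ k ∈ S, |c k| ≤ C) →
      (∑ k ∈ S, c k * y k ε) ^ 2 ≤ b ^ 2 * (∑ k ∈ S, c k ^ 2 * g) + η) {η : ℝ} (hη : 0 < η) :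
    ∀ᶠ ε : ℝ in 𝓝[>] 0, ∑ k ∈ S, y k ε ^ 2 ≤ b ^ 2 * g + η := by
  filter_upwards [hy, h (η ^ 2) (by positivity)] with ε h1 h2
  have h3 := h2 (fun k => y k ε) h1
  set Q := ∑ k ∈ S, y k ε ^ 2 with hQ
  have e1 : ∑ k ∈ S, y k ε * y k ε = Q := Finset.sum_congr rfl fun k _ => by ring
  have e2 : ∑ k ∈ S, y k ε ^ 2 * g = Q * g := by rw [hQ, Finset.sum_mul]
  rw [e1, e2] at h3
  by_contra hcon
  push Not at hcon
  have hbg : 0 ≤ b ^ 2 * g := by positivity
  have h4 : η < Q := by linarith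
  have h5 : η < Q - b ^ 2 * g := by linarith
  nlinarith

section
variable {K : Type} [Field K] [NumberField K] {H : Type*} [Group H] [Fintype H]

/-- Bessel's inequality for one conjugacy class -/
theorem bessel_class {κ : Type*} (S : Finset κ) (φ : κ → (GK K →* H))
    (ho : ∀ k ∈ S, IsOpen ((φ k).ker : Set (GK K))) (hs : ∀ k ∈ S, Function.Surjective (φ k))
    (hd : ∀ k ∈ S, ∀ k' ∈ S, k ≠ k' → (φ k).ker ⊔ (φ k').ker = ⊤)
    (σ : HeightOneSpectrum (𝓞 K) → GK K) (hσ : ∀ v, IsFrob v (σ v))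
    (t : HeightOneSpectrum (𝓞 K) → ℝ) {D : ℝ} (hD : 0 ≤ D) (ht : ∀ v, |t v| ≤ D)
    (c : ConjClasses H) {η : ℝ} (hη : 0 < η) :
    (∀ᶠ ε : ℝ in 𝓝[>] 0, ∀ k ∈ S,
      |(EP (nm K) ε fun v => t v * uc c (φ k (σ v))) / lam ε| ≤ 2 * D) ∧
    ∀ᶠ ε : ℝ in 𝓝[>] 0, ∑ k ∈ S,
      ((EP (nm K) ε fun v => t v * uc c (φ k (σ v))) / lam ε) ^ 2 ≤
        D ^ 2 * (wt c * (1 - wt c)) + η := by
  classical
  have hN : NormSys (nm K) := normSys
  obtain ⟨p0⟩ := exists_prime (K := K)
  have hbd : ∀ k v, |t v * uc c (φ k (σ v))| ≤ D * 1 := by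
    intro k v
    rw [abs_mul]
    exact mul_le_mul (ht v) (abs_uc _ _) (abs_nonneg _) hD
  have hy : ∀ᶠ ε : ℝ in 𝓝[>] 0, ∀ k ∈ S,
      |(EP (nm K) ε fun v => t v * uc c (φ k (σ v))) / lam ε| ≤ 2 * D := by
    filter_upwards [(EP_one K).eventually_lt_const (by norm_num : (1 : ℝ) < 2),
      lam_tendsto.eventually_gt_atTop 0, self_mem_nhdsWithin] with ε h1 h2 h3 k _
    have hε : (0 : ℝ) < ε := h3
    rw [div_lt_iff₀ h2] at h1
    rw [abs_div, abs_of_pos h2, div_le_iff₀ h2, abs_le]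
    have h4 := EP_le hN hε (hbd k) fun v => (le_abs_self _).trans (hbd k v)
    have h5 := EP_le hN hε (φ := fun v => (-1) * (t v * uc c (φ k (σ v)))) (fun v => by
      rw [abs_mul, abs_neg, abs_one, one_mul]
      exact hbd k v) (b := D * 1) fun v => by
        have := neg_abs_le (t v * uc c (φ k (σ v)))
        have := hbd k v
        linarith
    rw [EP_const_mul] at h5
    have h6 : D * 1 * (EP (nm K) ε fun _ => 1) ≤ 2 * D * lam ε := by nlinarith
    constructor <;> linarith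
  refine ⟨hy, ?_⟩
  have hw0 : 0 ≤ wt c * (1 - wt c) := mul_nonneg (wt_pos c).le (by linarith [wt_le c])
  refine sq_of_gram S _ D (wt c * (1 - wt c)) hw0 hy (fun η' hη' => ?_) hη
  have hgr := gramP hN p0 (EP_one K) S (fun v => ((t v : ℝ) : ℂ))
    (fun k v => ((uc c (φ k (σ v)) : ℝ) : ℂ)) D (fun v => by
      rw [Complex.norm_real, Real.norm_eq_abs]; exact ht v) (fun _ => 1) (fun k v => by
      rw [Complex.norm_real, Real.norm_eq_abs]; exact abs_uc _ _)
    (fun k k' => if k = k' then wt c * (1 - wt c) else 0) (fun k hk k' hk' => by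
      have e : (fun ε : ℝ => (EP (nm K) ε fun v => (((uc c (φ k (σ v)) : ℝ) : ℂ) *
          conj ((uc c (φ k' (σ v)) : ℝ) : ℂ)).re) / lam ε) =
          fun ε : ℝ => (EP (nm K) ε fun v => uc c (φ k (σ v)) * uc c (φ k' (σ v))) / lam ε := by
        funext ε
        congr 2
        funext v
        rw [Complex.conj_ofReal, ← Complex.ofReal_mul, Complex.ofReal_re]
      rw [e]
      by_cases hkk : k = k'
      · subst hkk
        rw [if_pos rfl]
        have h1 := cheb_hom (φ k) (ho k hk) (hs k hk) (fun a => uc c a * uc c a)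
          (fun a g => by rw [uc_conj]) σ hσ
        rw [mean_uc_sq] at h1
        exact h1
      · rw [if_neg hkk]
        have h1 := cheb_pair (φ k) (φ k') (ho k hk) (ho k' hk') (hs k hk) (hs k' hk')
          (hd k hk k' hk' hkk) (uc c) (uc c) (uc_conj c) (uc_conj c) σ hσ
        rw [mean_uc, zero_mul] at h1
        exact h1)
    (fun k ε => (EP (nm K) ε fun v => t v * uc c (φ k (σ v))) / lam ε) (fun k hk => by
      refine (tendsto_const_nhds (x := (0 : ℝ))).congr fun ε => ?_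
      have e : (EP (nm K) ε fun v => (((t v : ℝ) : ℂ) *
          conj ((uc c (φ k (σ v)) : ℝ) : ℂ)).re) = EP (nm K) ε fun v => t v * uc c (φ k (σ v)) := by
        congr 1
        funext v
        rw [Complex.conj_ofReal, ← Complex.ofReal_mul, Complex.ofReal_re]
      rw [e, sub_self]) (2 * D) hη'
  filter_upwards [hgr] with ε h1 a ha
  refine (h1 a ha).trans (le_of_eq ?_)
  congr 2
  refine Finset.sum_congr rfl fun k hk => ?_
  have e : ∀ k' : κ, a k * a k' * (if k = k' then wt c * (1 - wt c) else 0) =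
      if k = k' then a k * a k' * (wt c * (1 - wt c)) else 0 := by
    intro k'
    split_ifs <;> simp
  rw [Finset.sum_congr rfl fun k' _ => e k', Finset.sum_ite_eq, if_pos hk]
  ring

/-- **The sum over the extensions.** -/
theorem core {κ : Type*} (S : Finset κ) (φ : κ → (GK K →* H))
    (ho : ∀ k ∈ S, IsOpen ((φ k).ker : Set (GK K))) (hs : ∀ k ∈ S, Function.Surjective (φ k))
    (hd : ∀ k ∈ S, ∀ k' ∈ S, k ≠ k' → (φ k).ker ⊔ (φ k').ker = ⊤)
    (σ : HeightOneSpectrum (𝓞 K) → GK K) (hσ : ∀ v, IsFrob v (σ v))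
    (t : H → HeightOneSpectrum (𝓞 K) → ℝ) {D : ℝ} (hD : 0 ≤ D) (ht : ∀ h v, |t h v| ≤ D)
    (hc : ∀ h g v, t (g * h * g⁻¹) v = t h v) (x : κ → ℝ → ℝ)
    (hx : ∀ k ∈ S, Tendsto (fun ε : ℝ => (EP (nm K) ε fun v => t (φ k (σ v)) v -
      (Fintype.card H : ℝ)⁻¹ * ∑ h, t h v) / lam ε - x k ε) (𝓝[>] 0) (𝓝 0))
    {η : ℝ} (hη : 0 < η) :
    ∀ᶠ ε : ℝ in 𝓝[>] 0, ∑ k ∈ S, x k ε ^ 2 ≤
      ((Nat.card (ConjClasses H) : ℝ) - 1) * D ^ 2 + η := by
  classical
  have hN : NormSys (nm K) := normSys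
  let _ : Fintype (ConjClasses H) := Fintype.ofFinite _
  -- representatives of the classes
  choose s hs' using fun c : ConjClasses H => ConjClasses.exists_rep c
  have hts : ∀ h v, t h v = t (s (ConjClasses.mk h)) v := by
    intro h v
    have h1 : ConjClasses.mk h = ConjClasses.mk (s (ConjClasses.mk h)) := (hs' _).symm
    rw [ConjClasses.mk_eq_mk_iff_isConj, isConj_iff] at h1
    obtain ⟨g, hg⟩ := h1
    rw [← hg, hc]
  -- the decomposition
  have hdec : ∀ h v, t h v - (Fintype.card H : ℝ)⁻¹ * ∑ a, t a v =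
      ∑ c : ConjClasses H, t (s c) v * uc c h := by
    intro h v
    have e1 : ∑ c : ConjClasses H, t (s c) v * uc c h =
        ∑ c : ConjClasses H, (if ConjClasses.mk h = c then t (s c) v else 0) -
        ∑ c : ConjClasses H, wt c * t (s c) v := by
      rw [← Finset.sum_sub_distrib]
      refine Finset.sum_congr rfl fun c _ => ?_
      unfold uc
      split_ifs <;> ring
    rw [e1, Finset.sum_ite_eq, if_pos (Finset.mem_univ _), ← hts, sum_wt (fun c => t (s c) v)]
    congr 2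
    exact Finset.sum_congr rfl fun a _ => hts a v
  set y : ConjClasses H → κ → ℝ → ℝ := fun c k ε =>
    (EP (nm K) ε fun v => t (s c) v * uc c (φ k (σ v))) / lam ε with hy
  have hbd : ∀ c k v, |t (s c) v * uc c (φ k (σ v))| ≤ D * 1 := by
    intro c k v
    rw [abs_mul]
    exact mul_le_mul (ht _ v) (abs_uc _ _) (abs_nonneg _) hD
  set M : ℝ := (Fintype.card (ConjClasses H) : ℝ) with hM
  have hM0 : 0 ≤ M := Nat.cast_nonneg _
  set R : ℝ := M * (2 * D) + 1 with hR
  have hR0 : 0 < R := by positivity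
  set W : ℝ := ∑ c : ConjClasses H, (wt c)⁻¹ with hW
  have hW0 : 0 ≤ W := Finset.sum_nonneg fun c _ => (inv_pos.2 (wt_pos c)).le
  set n : ℝ := (S.card : ℝ) with hn
  have hn0 : 0 ≤ n := Nat.cast_nonneg _
  obtain ⟨θ, hθ0, hθ1, hθ2⟩ : ∃ θ : ℝ, 0 < θ ∧ θ ≤ 1 ∧ θ * (n * (2 * R) + W) ≤ η := by
    have h0 : 0 < n * (2 * R) + W + 1 := by positivity
    refine ⟨min 1 (η / (n * (2 * R) + W + 1)), lt_min one_pos (by positivity),
      min_le_left _ _, ?_⟩
    calc min 1 (η / (n * (2 * R) + W + 1)) * (n * (2 * R) + W)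
        ≤ η / (n * (2 * R) + W + 1) * (n * (2 * R) + W + 1) :=
          mul_le_mul (min_le_right _ _) (by linarith) (by positivity) (by positivity)
      _ = η := div_mul_cancel₀ _ h0.ne'
  have ev1 : ∀ᶠ ε : ℝ in 𝓝[>] 0, ∀ c : ConjClasses H,
      (∀ k ∈ S, |y c k ε| ≤ 2 * D) ∧
      ∑ k ∈ S, y c k ε ^ 2 ≤ D ^ 2 * (wt c * (1 - wt c)) + θ := by
    rw [Filter.eventually_all]
    intro c
    have h := bessel_class S φ ho hs hd σ hσ (t (s c)) hD (fun v => ht _ v) c hθ0
    exact h.1.and h.2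
  have ev2 : ∀ᶠ ε : ℝ in 𝓝[>] 0, ∀ k ∈ S, |(EP (nm K) ε fun v => t (φ k (σ v)) v -
      (Fintype.card H : ℝ)⁻¹ * ∑ h, t h v) / lam ε - x k ε| ≤ θ := by
    rw [Filter.eventually_all_finset]
    intro k hk
    have := (Metric.tendsto_nhds.1 (hx k hk)) θ hθ0
    refine this.mono fun ε h1 => ?_
    rw [Real.dist_eq, sub_zero] at h1
    exact h1.le
  filter_upwards [ev1, ev2, self_mem_nhdsWithin, lam_tendsto.eventually_gt_atTop 0]
    with ε h1 h2 h3 h4
  have hε : (0 : ℝ) < ε := h3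
  have e1 : ∀ k, (EP (nm K) ε fun v => t (φ k (σ v)) v -
      (Fintype.card H : ℝ)⁻¹ * ∑ h, t h v) / lam ε = ∑ c, y c k ε := by
    intro k
    have e2 : (fun v => t (φ k (σ v)) v - (Fintype.card H : ℝ)⁻¹ * ∑ h, t h v) =
        fun v => ∑ c : ConjClasses H, t (s c) v * uc c (φ k (σ v)) :=
      funext fun v => hdec _ v
    rw [e2, EP_sum hN hε Finset.univ (fun c v => t (s c) v * uc c (φ k (σ v)))
      (fun _ => D * 1) (fun c _ v => hbd c k v), Finset.sum_div]
  have hyR : ∀ k ∈ S, |∑ c, y c k ε| ≤ M * (2 * D) := by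
    intro k hk
    refine (Finset.abs_sum_le_sum_abs _ _).trans ?_
    refine (Finset.sum_le_card_nsmul _ _ (2 * D) fun c _ => (h1 c).1 k hk).trans ?_
    rw [nsmul_eq_mul, Finset.card_univ]
  have hxk : ∀ k ∈ S, x k ε ^ 2 ≤ (∑ c, y c k ε) ^ 2 + θ * (2 * R) := by
    intro k hk
    have h5 := h2 k hk
    rw [e1] at h5
    have h6 := hyR k hk
    set A := ∑ c, y c k ε
    set B := x k ε
    have h7 : |B - A| ≤ θ := by rw [abs_sub_comm]; exact h5
    have h8 : B ^ 2 - A ^ 2 = (B - A) * (B + A) := by ring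
    have h9 : |B + A| ≤ 2 * R := by
      have h10 : |B| ≤ |B - A| + |A| := by
        have := abs_add_le (B - A) A
        rwa [sub_add_cancel] at this
      have h11 := abs_add_le B A
      rw [hR]
      linarith
    have h12 : (B - A) * (B + A) ≤ θ * (2 * R) := by
      refine (le_abs_self _).trans ?_
      rw [abs_mul]
      exact mul_le_mul h7 h9 (abs_nonneg _) hθ0.le
    linarith
  have hcs : ∀ k, (∑ c, y c k ε) ^ 2 ≤ ∑ c, (wt c)⁻¹ * y c k ε ^ 2 := by
    intro k
    have h5 := Finset.sum_sq_le_sum_mul_sum_of_sq_eq_mul (Finset.univ : Finset (ConjClasses H))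
      (f := fun c => wt c) (g := fun c => (wt c)⁻¹ * y c k ε ^ 2) (r := fun c => y c k ε)
      (fun c _ => (wt_pos c).le)
      (fun c _ => mul_nonneg (inv_pos.2 (wt_pos c)).le (sq_nonneg _)) (fun c _ => by
        rw [← mul_assoc, mul_inv_cancel₀ (wt_pos c).ne', one_mul])
    have h6 : ∑ c : ConjClasses H, wt c = 1 := by
      have := sum_wt (H := H) fun _ => 1
      simp only [mul_one] at this
      rw [this, Finset.sum_const, Finset.card_univ, nsmul_eq_mul, mul_one,
        inv_mul_cancel₀ card_pos.ne']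
    rw [h6, one_mul] at h5
    exact h5
  calc ∑ k ∈ S, x k ε ^ 2 ≤ ∑ k ∈ S, ((∑ c, (wt c)⁻¹ * y c k ε ^ 2) + θ * (2 * R)) :=
        Finset.sum_le_sum fun k hk => (hxk k hk).trans (add_le_add_left (hcs k) _)
    _ = (∑ c, (wt c)⁻¹ * ∑ k ∈ S, y c k ε ^ 2) + n * (θ * (2 * R)) := by
        rw [Finset.sum_add_distrib, Finset.sum_comm, Finset.sum_const, nsmul_eq_mul]
        congr 1
        exact Finset.sum_congr rfl fun c _ => by rw [Finset.mul_sum]
    _ ≤ (∑ c, (wt c)⁻¹ * (D ^ 2 * (wt c * (1 - wt c)) + θ)) + n * (θ * (2 * R)) := by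
        refine add_le_add_left (Finset.sum_le_sum fun c _ => ?_) _
        exact mul_le_mul_of_nonneg_left (h1 c).2 (inv_pos.2 (wt_pos c)).le
    _ = (M - 1) * D ^ 2 + θ * (n * (2 * R) + W) := by
        have e5 : ∀ c : ConjClasses H, (wt c)⁻¹ * (D ^ 2 * (wt c * (1 - wt c)) + θ) =
            D ^ 2 * (1 - wt c) + θ * (wt c)⁻¹ := by
          intro c
          have := (wt_pos c).ne'
          field_simp
        rw [Finset.sum_congr rfl fun c _ => e5 c, Finset.sum_add_distrib, ← Finset.mul_sum,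
          ← Finset.mul_sum, Finset.sum_sub_distrib, Finset.sum_const, Finset.card_univ,
          nsmul_eq_mul, mul_one]
        have h6 : ∑ c : ConjClasses H, wt c = 1 := by
          have := sum_wt (H := H) fun _ => 1
          simp only [mul_one] at this
          rw [this, Finset.sum_const, Finset.card_univ, nsmul_eq_mul, mul_one,
            inv_mul_cancel₀ card_pos.ne']
        rw [h6]
        ring
    _ ≤ ((Nat.card (ConjClasses H) : ℝ) - 1) * D ^ 2 + η := by
        rw [Nat.card_eq_fintype_card]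
        exact add_le_add_right hθ2 _

end

end Pool.Agent.Y149.WR
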