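import Pool.Agent.W353.AT.Defs

/-!
# Weil restrictions and quotients of powers: definitions

`X` is a smooth projective variety of dimension `d` over a number field `K` with Betti numbers
`N 0, …, N (2d)`, `F` an extension of `K` of degree `n`, and `G` a group of permutations of
`1, …, n`.  The definitions are about the cohomology of

* the Weil restriction `R = Res_{F/K} X_F`, a smooth projective variety of dimension `n d` over `K`,
  isomorphic to `X^n` over the algebraic closure;
* the quotient `X^n / G`, for example the symmetric power `Sym^n X` for the group of all permutations.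

By the theorem of Künneth `H^*(X^n)` has a basis formed by the words `w_1 ⋯ w_n` in the letters of a
basis of `H^*(X)`.
-/

set_option autoImplicit false

namespace Pool.Agent.Y149.WR

open NumberField IsDedekindDomain Filter Topology Polynomial
open Pool.Agent.W353.EF (IsFrobenius LFun perm closure)
open Pool.Agent.W353.AT (IsFrobeniusElement)

/-- The letters: a basis of the cohomology of `X`; `(a, j)` with `j < N a` is a letter of degree `a`,
`0 ≤ a ≤ 2d`. -/
abbrev Letter (d : ℕ) (N : ℕ → ℕ) : Type := Σ a : Fin (2 * d + 1), Fin (N a)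

section
variable {d : ℕ} {N : ℕ → ℕ} {n : ℕ}

/-- The degree of a word: the sum of the degrees of its letters. -/
def deg (w : Fin n → Letter d N) : ℕ := ∑ j, ((w j).1 : ℕ)

/-- The dimension of `H^i(X^n)`: the number of the words of degree `i`. -/
noncomputable def betti (d : ℕ) (N : ℕ → ℕ) (n i : ℕ) : ℕ :=
  Nat.card {w : Fin n → Letter d N // deg w = i}

open Classical in
/-- The sign of the permutation induced by `τ` on the set of the `j` with the property `p` (zero if `τ`
does not map this set to itself). -/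
noncomputable def signOn (τ : Equiv.Perm (Fin n)) (p : Fin n → Prop) : ℂ :=
  if h : ∀ j, p (τ j) ↔ p j then ((Equiv.Perm.sign (τ.subtypePerm h) : ℤ) : ℂ) else 0

/-- The sign of the permutation induced by `τ` on the set of the places `j` of the word `w` with a letter
`w_j` of odd degree. -/
noncomputable def sgn (τ : Equiv.Perm (Fin n)) (w : Fin n → Letter d N) : ℂ :=
  signOn τ fun j => Odd ((w j).1 : ℕ)

open Classical in
/-- The trace on `H^i(X^n)` of the composition of the permutation `τ` of the factors with the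
endomorphism given by the Frobenius on every factor; `x` are the eigenvalues of Frobenius on `H^*(X)`.
It is the sum of `± ∏ x(w_j)` over the words `w` of degree `i` with `w_{τ(j)} = w_j` for all `j`. -/
noncomputable def T (τ : Equiv.Perm (Fin n)) (x : Letter d N → ℂ) (i : ℕ) : ℂ :=
  ∑ w : {w : Fin n → Letter d N // w ∘ τ = w ∧ deg w = i}, sgn τ w.1 * ∏ j, x (w.1 j)

/-- The multisets of letters of total degree `i` in which no letter of odd degree is repeated. -/
def GoodM (i : ℕ) (s : Multiset (Letter d N)) : Prop :=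
  (∀ y : Letter d N, Odd (y.1 : ℕ) → s.count y ≤ 1) ∧ (s.map fun y => (y.1 : ℕ)).sum = i

/-- The dimension of `H^i(Sym^n X)`: the number of the multisets of `n` letters of total degree `i` in
which no letter of odd degree is repeated. -/
noncomputable def symBetti (d : ℕ) (N : ℕ → ℕ) (n i : ℕ) : ℕ :=
  Nat.card {s : Multiset (Letter d N) // s.card = n ∧ GoodM i s}

end

section
variable {K : Type} [Field K] [NumberField K] {l : ℕ}

/-- `x` are the eigenvalues of the geometric Frobenius at `v` on `H^*(X)`: for all `a ≤ 2d` the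
`x(a, j)`, `j < N a`, are those on `H^a(X)`. -/
def IsEigen (X : Set (MvPolynomial (Fin l) (𝓞 K))) (d : ℕ) (N : ℕ → ℕ)
    (v : HeightOneSpectrum (𝓞 K)) (x : Letter d N → ℂ) : Prop :=
  ∀ a : Fin (2 * d + 1), IsFrobenius X d a v fun j : Fin (N a) => x ⟨a, j⟩

/-- The permutation of `1, …, n` given by `σ`, an element of the absolute Galois group of `K`, through
its action on the embeddings over `K` of `F` into the algebraic closure of `K`, which are numbered
by `e`. -/
noncomputable def num {F : Type} [Field F] [Algebra K F] {n : ℕ}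
    (e : Fin n ≃ (F →ₐ[K] AlgebraicClosure K)) :
    Gal(AlgebraicClosure K/K) →* Equiv.Perm (Fin n) where
  toFun σ := e.symm.permCongr (perm K F σ)
  map_one' := Equiv.ext fun j => by simp
  map_mul' σ ρ := Equiv.ext fun j => by simp

/-- The Galois group of (the closure of) `F/K`, as a group of permutations of the embeddings of `F`
(numbered by `e`), is `G`. -/
def HasGroup {F : Type} [Field F] [Algebra K F] {n : ℕ}
    (e : Fin n ≃ (F →ₐ[K] AlgebraicClosure K)) (G : Subgroup (Equiv.Perm (Fin n))) : Prop :=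
  ∀ τ, τ ∈ G ↔ ∃ σ, num e σ = τ

/-- The polynomials `B v` are the Euler factors of `L(H^i(Res_{F/K} X_F), s)`: for almost all primes `v`
of `K`, `B_v(z) = ∏ (1 - γ_j z)` for the eigenvalues `γ_j` of Frobenius on `H^i(Res_{F/K} X_F)`, the
complex numbers of absolute value `q_v^{i/2}` such that for all `k ≥ 1` the sum of the `γ_j ^ k` is the
trace of the `k`-th power: it is `T (τ ^ k) (x ^ k) i`, where `x` are the eigenvalues of Frobenius on
`H^*(X)` and `τ` is the permutation of the embeddings of `F` given by Frobenius.  At the other primes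
`B v` is an arbitrary polynomial, and no factor `1 / B_v(q_v^{-s})` has a pole at `s = i/2 + 1`. -/
def IsRestriction (X : Set (MvPolynomial (Fin l) (𝓞 K))) (d : ℕ) (N : ℕ → ℕ)
    {F : Type} [Field F] [Algebra K F] {n : ℕ} (e : Fin n ≃ (F →ₐ[K] AlgebraicClosure K))
    (i M : ℕ) (B : HeightOneSpectrum (𝓞 K) → ℂ[X]) : Prop :=
  (∀ᶠ v in cofinite, ∃ (x : Letter d N → ℂ) (γ : Fin M → ℂ), IsEigen X d N v x ∧
    (∀ j, ‖γ j‖ = (Ideal.absNorm v.asIdeal : ℝ) ^ ((i : ℝ) / 2)) ∧
    (∀ σ, IsFrobeniusElement v σ → ∀ k : ℕ, 1 ≤ k →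
      ∑ j, γ j ^ k = T (num e σ ^ k) (fun y => x y ^ k) i) ∧
    ∀ z : ℂ, (B v).eval z = ∏ j, (1 - γ j * z)) ∧
  ∀ v, (B v).eval ((Ideal.absNorm v.asIdeal : ℂ) ^ (-((i : ℂ) / 2 + 1))) ≠ 0

/-- The polynomials `B v` are the Euler factors of `L(H^i(X^n / G), s)`: for almost all primes `v` of `K`,
`B_v(z) = ∏ (1 - γ_j z)` for the eigenvalues `γ_j` of Frobenius on `H^i(X^n / G) = H^i(X^n)^G`, the
complex numbers of absolute value `q_v^{i/2}` such that for all `k ≥ 1` the sum of the `γ_j ^ k` is the
trace of the `k`-th power on the invariants, the mean value of the numbers `T τ (x ^ k) i`, `τ ∈ G`, for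
the eigenvalues `x` of Frobenius on `H^*(X)`.  At the other primes `B v` is an arbitrary polynomial, and
no factor `1 / B_v(q_v^{-s})` has a pole at `s = i/2 + 1`. -/
def IsQuotient (X : Set (MvPolynomial (Fin l) (𝓞 K))) (d : ℕ) (N : ℕ → ℕ) {n : ℕ}
    (G : Subgroup (Equiv.Perm (Fin n))) (i M : ℕ) (B : HeightOneSpectrum (𝓞 K) → ℂ[X]) : Prop :=
  (∀ᶠ v in cofinite, ∃ (x : Letter d N → ℂ) (γ : Fin M → ℂ), IsEigen X d N v x ∧
    (∀ j, ‖γ j‖ = (Ideal.absNorm v.asIdeal : ℝ) ^ ((i : ℝ) / 2)) ∧
    (∀ k : ℕ, 1 ≤ k →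
      ∑ j, γ j ^ k = (Nat.card G : ℂ)⁻¹ * ∑ᶠ τ : G, T τ.1 (fun y => x y ^ k) i) ∧
    ∀ z : ℂ, (B v).eval z = ∏ j, (1 - γ j * z)) ∧
  ∀ v, (B v).eval ((Ideal.absNorm v.asIdeal : ℂ) ^ (-((i : ℂ) / 2 + 1))) ≠ 0

/-- Let `V` be the space of the algebraic cycles of a given codimension on `X^n` over the algebraic
closure (with coefficients in the field `k`, modulo homological equivalence), with the action `ρ` of the
permutations of the factors and of the absolute Galois group.  The cycles on `Res_{F/K} X_F` are the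
elements of `V` fixed by `ρ (τ, σ)` for all `σ`, where `τ` is the permutation of the embeddings of `F`
given by `σ`. -/
def cyclesRestriction {k V : Type} [Field k] [AddCommGroup V] [Module k V] {F : Type} [Field F]
    [Algebra K F] {n : ℕ} (e : Fin n ≃ (F →ₐ[K] AlgebraicClosure K))
    (ρ : Representation k (Equiv.Perm (Fin n) × Gal(AlgebraicClosure K/K)) V) : Set V :=
  {x | ∀ σ, ρ (num e σ, σ) x = x}

/-- The cycles on `X^n / G`: the elements of `V` fixed by `ρ (τ, σ)` for all `τ ∈ G` and all `σ`. -/
def cyclesQuotient {k V : Type} [Field k] [AddCommGroup V] [Module k V] {n : ℕ}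
    (G : Subgroup (Equiv.Perm (Fin n)))
    (ρ : Representation k (Equiv.Perm (Fin n) × Gal(AlgebraicClosure K/K)) V) : Set V :=
  {x | ∀ τ ∈ G, ∀ σ, ρ (τ, σ) x = x}

/-- The cohomology of `X` is of Tate type except for a two-dimensional piece of odd degree: there are
exactly two letters `y₁`, `y₂` of odd degree, of the same degree `a`, and for almost all primes `v` of `K`
the eigenvalue of Frobenius is `q_v^{b/2}` for all letters of even degree `b`, and the product of the two
eigenvalues for `y₁` and `y₂` is `q_v^a`.  Examples are the elliptic curves, and the rigid Calabi–Yau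
threefolds whose second cohomology is generated by divisors defined over `K`. -/
def IsTwo (X : Set (MvPolynomial (Fin l) (𝓞 K))) (d : ℕ) (N : ℕ → ℕ) : Prop :=
  ∃ y₁ y₂ : Letter d N, y₁ ≠ y₂ ∧ Odd (y₁.1 : ℕ) ∧ y₂.1 = y₁.1 ∧
    (∀ y : Letter d N, y ≠ y₁ → y ≠ y₂ → Even (y.1 : ℕ)) ∧
    ∀ᶠ v : HeightOneSpectrum (𝓞 K) in cofinite, ∃ x : Letter d N → ℂ, IsEigen X d N v x ∧
      (∀ y, Even (y.1 : ℕ) → x y = (Ideal.absNorm v.asIdeal : ℂ) ^ ((y.1 : ℕ) / 2)) ∧
      x y₁ * x y₂ = (Ideal.absNorm v.asIdeal : ℂ) ^ (y₁.1 : ℕ)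

end

end Pool.Agent.Y149.WR
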