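import Pool.Agent.Y149.WR.Two

/-! Weil restrictions and quotients of powers: orders and cycles. -/

set_option autoImplicit false

namespace Pool.Agent.Y149.WR

open Complex Filter Topology NumberField IsDedekindDomain Polynomial IntermediateField
open Pool.Agent.W401.Cheb Pool.Agent.W540.BE
open Pool.Agent.W353.EF (LFun size perm closure)
open Pool.Agent.Y149.Ord (HasOrder)

section
variable {K : Type} [Field K] [NumberField K] {l : ℕ} {X : Set (MvPolynomial (Fin l) (𝓞 K))}
  {d : ℕ} {N : ℕ → ℕ} {n i : ℕ} {G : Subgroup (Equiv.Perm (Fin n))}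

/-- disjoint fields generate the whole group -/
theorem fix_sup {A B : IntermediateField K (AlgebraicClosure K)} [FiniteDimensional K A]
    (h : A ⊓ B = ⊥) : A.fixingSubgroup ⊔ B.fixingSubgroup = ⊤ := by
  set H : Subgroup (GK K) := A.fixingSubgroup ⊔ B.fixingSubgroup with hH
  have hop : IsOpen (H : Set (GK K)) :=
    Subgroup.isOpen_mono (le_sup_left : A.fixingSubgroup ≤ H)
      (IntermediateField.fixingSubgroup_isOpen A)
  have hcl : IsClosed (H : Set (GK K)) := Subgroup.isClosed_of_isOpen H hop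
  have h1 : IntermediateField.fixedField H ≤ A := by
    have e := InfiniteGalois.fixedField_fixingSubgroup A
    rw [← e]
    exact IntermediateField.fixedField_le le_sup_left
  have h2 : IntermediateField.fixedField H ≤ B := by
    have e := InfiniteGalois.fixedField_fixingSubgroup B
    rw [← e]
    exact IntermediateField.fixedField_le le_sup_right
  have h3 : IntermediateField.fixedField H = ⊥ := by
    rw [eq_bot_iff, ← h]
    exact le_inf h1 h2
  have h4 := InfiniteGalois.fixingSubgroup_fixedField (k := K) (K := AlgebraicClosure K)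
    (⟨H, hcl⟩ : ClosedSubgroup (GK K))
  have h6 : ((⟨H, hcl⟩ : ClosedSubgroup (GK K)).toSubgroup) = H := rfl
  rw [← h6, ← h4]
  have h7 : IntermediateField.fixedField ((⟨H, hcl⟩ : ClosedSubgroup (GK K)) : Subgroup (GK K)) =
      ⊥ := h3
  rw [h7, IntermediateField.fixingSubgroup_bot]

/-- **The cycles.** -/
theorem cycles_eq {k V : Type} [Field k] [AddCommGroup V] [Module k V] {F : Type} [Field F]
    [NumberField F] [Algebra K F] (e : Fin n ≃ (F →ₐ[K] AlgebraicClosure K))
    (ρ : Representation k (Equiv.Perm (Fin n) × Gal(AlgebraicClosure K/K)) V)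
    (L : IntermediateField K (AlgebraicClosure K)) (hρ : ∀ σ ∈ L.fixingSubgroup, ρ (1, σ) = 1)
    (hG : HasGroup e G) (hL : closure K F ⊓ L = ⊥) :
    cyclesRestriction e ρ = cyclesQuotient G ρ := by
  have hfd := closure_finite (K := K) F
  have hsup := fix_sup hL
  rw [← ker_perm, ← num_ker e] at hsup
  ext x
  constructor
  · intro hx τ hτ σ
    obtain ⟨s, hs⟩ := (hG τ).1 hτ
    have hmem : s⁻¹ * σ ∈ (num e).ker ⊔ L.fixingSubgroup := by
      rw [hsup]
      exact Subgroup.mem_top _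
    obtain ⟨u, hu, w, hw, huw⟩ := Subgroup.mem_sup_of_normal_left.1 hmem
    have hu' : num e u = 1 := hu
    have e1 : (τ, σ) = ((num e (s * u), s * u) : Equiv.Perm (Fin n) × GK K) * (1, w) := by
      refine Prod.ext ?_ ?_
      · simp only [Prod.fst_mul, mul_one]
        rw [map_mul, hu', mul_one, hs]
      · simp only [Prod.snd_mul]
        rw [mul_assoc, huw, mul_inv_cancel_left]
    have e2 : ρ (τ, σ) x = ρ (num e (s * u), s * u) (ρ (1, w) x) := by
      rw [e1, map_mul]
      rfl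
    rw [e2, hρ w hw, Module.End.one_apply]
    exact hx _
  · intro hx σ
    exact hx _ ((hG _).2 ⟨σ, rfl⟩) σ

/-- the orders from the sizes -/
theorem order_of_freq {B : HeightOneSpectrum (𝓞 K) → ℂ[X]} {ref : ℝ → ℝ} {c : ℤ} {r : ℤ}
    (hne : ∀ᶠ ε : ℝ in 𝓝[>] 0, LFun B ((i : ℂ) / 2 + 1 + ε) ≠ 0)
    (href : Tendsto ref (𝓝[>] 0) (𝓝 (-(c : ℝ)))) {δ : ℝ} (hδ : δ < 1)
    (hf : ∃ᶠ ε : ℝ in 𝓝[>] 0, |size i B ε - ref ε| < δ) (hr : HasOrder i B r) : r = c := by
  have h1 := ((ord_lim hne hr).sub href).abs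
  have h2 : |-(r : ℝ) - -(c : ℝ)| ≤ δ := by
    by_contra hcon
    push Not at hcon
    exact hf ((h1.eventually (lt_mem_nhds hcon)).mono fun ε h3 => not_lt.2 (le_of_lt h3))
  have h3 : |(c : ℝ) - r| < 1 := by
    have e : (c : ℝ) - r = -(r : ℝ) - -(c : ℝ) := by ring
    rw [e]
    linarith
  have h4 : |c - r| < 1 := by exact_mod_cast h3
  have h5 := Int.abs_lt_one_iff.1 h4
  omega

theorem classes_top {H : Type*} [Group H] :
    Nat.card (ConjClasses (⊤ : Subgroup H)) = Nat.card (ConjClasses H) := by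
  refine Nat.card_congr
    ⟨ConjClasses.map (Subgroup.topEquiv (G := H)).toMonoidHom,
      ConjClasses.map (Subgroup.topEquiv (G := H)).symm.toMonoidHom, fun c => ?_, fun c => ?_⟩
  · obtain ⟨a, rfl⟩ := ConjClasses.exists_rep c
    rfl
  · obtain ⟨a, rfl⟩ := ConjClasses.exists_rep c
    rfl

/-- the number of conjugacy classes -/
theorem classes_pos : 1 ≤ Nat.card (ConjClasses G) := Nat.card_pos

theorem exists_delta (A : ℕ) : ∃ δ : ℝ, 0 < δ ∧ δ < 1 ∧ ⌊(A : ℝ) / δ ^ 2⌋₊ = A := by
  have hA : (0 : ℝ) ≤ A := Nat.cast_nonneg _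
  refine ⟨Real.sqrt (((A : ℝ) + 1 / 2) / (A + 1)), Real.sqrt_pos.2 (by positivity), ?_, ?_⟩
  · rw [Real.sqrt_lt' one_pos, one_pow, div_lt_one (by positivity)]
    linarith
  · rw [Real.sq_sqrt (by positivity), Nat.floor_eq_iff (by positivity)]
    constructor
    · rw [le_div_iff₀ (by positivity), mul_div_assoc', div_le_iff₀ (by positivity)]
      nlinarith
    · rw [div_lt_iff₀ (by positivity), mul_div_assoc', lt_div_iff₀ (by positivity)]
      nlinarith

/-- **One field governs all extensions with the same group.** -/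
theorem governs {ref : ℝ → ℝ} (href : IsRef X d N i G ref) :
    ∃ Mf : IntermediateField K (AlgebraicClosure K), FiniteDimensional K Mf ∧ IsGalois K Mf ∧
      Module.finrank K Mf ≤
        Nat.card G ^ ((Nat.card (ConjClasses G) - 1) * betti d N n i ^ 2) ∧
      ∀ (F : Type) [Field F] [NumberField F] [Algebra K F]
        (e : Fin n ≃ (F →ₐ[K] AlgebraicClosure K)) (M : ℕ)
        (B : HeightOneSpectrum (𝓞 K) → ℂ[X]), HasGroup e G → closure K F ⊓ Mf = ⊥ →
        IsRestriction X d N e i M B →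
        (∀ᶠ ε : ℝ in 𝓝[>] 0, LFun B ((i : ℂ) / 2 + 1 + ε) ≠ 0) ∧
        (∃ᶠ ε : ℝ in 𝓝[>] 0, |size i B ε - ref ε| < 1) ∧
        ∀ c r : ℤ, Tendsto ref (𝓝[>] 0) (𝓝 (-(c : ℝ))) → HasOrder i B r → r = c := by
  obtain ⟨δ, hδ0, hδ1, hδ2⟩ := exists_delta ((Nat.card (ConjClasses G) - 1) * betti d N n i ^ 2)
  obtain ⟨Mf, h1, h2, h3, h4⟩ := main_field href hδ0
  have e1 : ((Nat.card (ConjClasses G) : ℝ) - 1) * (betti d N n i : ℝ) ^ 2 =
      (((Nat.card (ConjClasses G) - 1) * betti d N n i ^ 2 : ℕ) : ℝ) := by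
    push_cast [Nat.cast_sub (classes_pos (G := G))]
    ring
  rw [e1, hδ2] at h3
  choose σ hσ using exists_isFrob (F := K)
  refine ⟨Mf, h1, h2, h3, fun F _ _ _ e M B hG hdis hB => ?_⟩
  have hne := (size_restriction e hB σ hσ).1
  have hf := h4 F e M B hG hdis hB
  exact ⟨hne, hf.mono fun ε h => h.trans hδ1, fun c r href' hr =>
    order_of_freq hne href' hδ1 hf hr⟩

end

end Pool.Agent.Y149.WR
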