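import Pool.Agent.Y149.WR.Defs
import Pool.Agent.W353.TP.Deg
import Pool.Agent.W353.NF.Act
import Mathlib.FieldTheory.Galois.Infinite

/-! The Galois groups of the closures. -/

set_option autoImplicit false

namespace Pool.Agent.Y149.WR

open NumberField IsDedekindDomain IntermediateField
open Pool.Agent.W353.EF (perm closure)
open Pool.Agent.W401.Cheb (GK)

section
variable {K : Type} [Field K] [NumberField K] (F : Type) [Field F] [NumberField F] [Algebra K F]

theorem ker_perm_open : IsOpen ((perm K F).ker : Set (GK K)) :=
  Pool.Agent.W353.NF.ker_act_open K F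

/-- the kernel is the group of the closure -/
theorem ker_perm : (perm K F).ker = (closure K F).fixingSubgroup := by
  refine le_antisymm ?_ ?_
  · rw [← IntermediateField.le_iff_le]
    refine iSup_le fun i => ?_
    rintro _ ⟨x, rfl⟩
    rw [IntermediateField.mem_fixedField_iff]
    intro σ hσ
    have h : perm K F σ i = i := by
      rw [MonoidHom.mem_ker.1 hσ]
      rfl
    exact DFunLike.congr_fun h x
  · intro σ hσ
    rw [MonoidHom.mem_ker]
    refine Equiv.ext fun i => AlgHom.ext fun x => ?_
    rw [IntermediateField.mem_fixingSubgroup_iff] at hσ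
    exact hσ (i x) ((le_iSup (fun i : F →ₐ[K] AlgebraicClosure K => i.fieldRange) i) ⟨x, rfl⟩)

theorem closure_eq : closure K F = IntermediateField.normalClosure K F (AlgebraicClosure K) := by
  rw [normalClosure_def]
  rfl

theorem closure_finite : FiniteDimensional K (closure K F) := by
  rw [closure_eq]
  infer_instance

theorem closure_normal : Normal K (closure K F) := by
  rw [closure_eq]
  infer_instance

theorem closure_galois : IsGalois K (closure K F) := by
  have := closure_normal (K := K) F
  exact IsGalois.mk

theorem isGalois_top : IsGalois K (AlgebraicClosure K) := inferInstance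

/-- the degree of the closure -/
theorem closure_finrank : Module.finrank K (closure K F) = Nat.card (perm K F).range := by
  rw [IntermediateField.finrank_eq_fixingSubgroup_index, ← ker_perm, Subgroup.index_ker]

variable {F} in
/-- disjoint closures -/
theorem ker_sup {F' : Type} [Field F'] [NumberField F'] [Algebra K F']
    (h : closure K F ⊓ closure K F' = ⊥) : (perm K F).ker ⊔ (perm K F').ker = ⊤ := by
  set H : Subgroup (GK K) := (perm K F).ker ⊔ (perm K F').ker with hH
  have hop : IsOpen (H : Set (GK K)) :=
    Subgroup.isOpen_mono (le_sup_left : (perm K F).ker ≤ H) (ker_perm_open F)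
  have hcl : IsClosed (H : Set (GK K)) := Subgroup.isClosed_of_isOpen H hop
  have h1 : IntermediateField.fixedField H ≤ closure K F := by
    have e := InfiniteGalois.fixedField_fixingSubgroup (closure K F)
    rw [← ker_perm] at e
    rw [← e]
    exact IntermediateField.fixedField_le le_sup_left
  have h2 : IntermediateField.fixedField H ≤ closure K F' := by
    have e := InfiniteGalois.fixedField_fixingSubgroup (closure K F')
    rw [← ker_perm] at e
    rw [← e]
    exact IntermediateField.fixedField_le le_sup_right
  have h3 : IntermediateField.fixedField H = ⊥ := by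
    rw [eq_bot_iff, ← h]
    exact le_inf h1 h2
  have h4 := InfiniteGalois.fixingSubgroup_fixedField (k := K) (K := AlgebraicClosure K)
    (⟨H, hcl⟩ : ClosedSubgroup (GK K))
  have h5 : IntermediateField.fixedField (⟨H, hcl⟩ : ClosedSubgroup (GK K)).toSubgroup =
      IntermediateField.fixedField H := rfl
  have h6 : ((⟨H, hcl⟩ : ClosedSubgroup (GK K)).toSubgroup) = H := rfl
  rw [← h6, ← h4]
  have h7 : IntermediateField.fixedField ((⟨H, hcl⟩ : ClosedSubgroup (GK K)) : Subgroup (GK K)) =
      ⊥ := h3
  rw [h7, IntermediateField.fixingSubgroup_bot]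

end

section
variable {K : Type} [Field K] [NumberField K] {F : Type} [Field F] [NumberField F] [Algebra K F]
  {n : ℕ} (e : Fin n ≃ (F →ₐ[K] AlgebraicClosure K)) {G : Subgroup (Equiv.Perm (Fin n))}

theorem num_ker : (num e).ker = (perm K F).ker := by
  ext σ
  rw [MonoidHom.mem_ker, MonoidHom.mem_ker]
  have h : num e σ = e.symm.permCongr (perm K F σ) := rfl
  rw [h]
  constructor
  · intro h1
    refine Equiv.ext fun i => ?_
    have h2 := congrArg (fun τ : Equiv.Perm (Fin n) => τ (e.symm i)) h1
    simp only [Equiv.permCongr_apply, Equiv.symm_symm, Equiv.apply_symm_apply,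
      Equiv.Perm.coe_one, id_eq] at h2
    exact e.symm.injective h2
  · intro h1
    rw [h1]
    refine Equiv.ext fun j => ?_
    simp

/-- the homomorphism onto the group -/
noncomputable def hom (h : HasGroup e G) : GK K →* G :=
  (num e).codRestrict G fun σ => (h _).2 ⟨σ, rfl⟩

theorem hom_apply (h : HasGroup e G) (σ : GK K) : (hom e h σ : Equiv.Perm (Fin n)) = num e σ := rfl

theorem hom_surj (h : HasGroup e G) : Function.Surjective (hom e h) := by
  rintro ⟨τ, hτ⟩
  obtain ⟨σ, hσ⟩ := (h τ).1 hτ
  exact ⟨σ, Subtype.ext hσ⟩

theorem hom_ker (h : HasGroup e G) : (hom e h).ker = (perm K F).ker := by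
  rw [← num_ker e]
  exact MonoidHom.ker_codRestrict _ _ _

theorem hom_open (h : HasGroup e G) : IsOpen ((hom e h).ker : Set (GK K)) := by
  rw [hom_ker]
  exact ker_perm_open F

/-- the degree of the closure is the order of the group -/
theorem finrank_closure (h : HasGroup e G) : Module.finrank K (closure K F) = Nat.card G := by
  rw [closure_finrank]
  have e1 : Nat.card (hom e h).range = Nat.card (perm K F).range := by
    rw [← Subgroup.index_ker, ← Subgroup.index_ker, hom_ker]
  rw [← e1, MonoidHom.range_eq_top.2 (hom_surj e h)]
  exact Nat.card_congr Subgroup.topEquiv.toEquiv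

end

end Pool.Agent.Y149.WR
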