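import Pool.Agent.Y149.WR.Size

/-! Weil restrictions and quotients of powers: the main theorems. -/

set_option autoImplicit false

namespace Pool.Agent.Y149.WR

open Complex Filter Topology ComplexConjugate NumberField IsDedekindDomain Polynomial
open Pool.Agent.W540.BE Pool.Agent.W353.L1 Pool.Agent.W401.Cheb
open Pool.Agent.H341R2 (lam lam_tendsto)
open Pool.Agent.W353.EF (LFun size perm closure)

section
variable {K : Type} [Field K] [NumberField K] {l : ℕ} {X : Set (MvPolynomial (Fin l) (𝓞 K))}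
  {d : ℕ} {N : ℕ → ℕ} {n i : ℕ} {G : Subgroup (Equiv.Perm (Fin n))}

/-- a function asymptotic to the mean value of the traces -/
def IsRef (X : Set (MvPolynomial (Fin l) (𝓞 K))) (d : ℕ) (N : ℕ → ℕ) (i : ℕ)
    (G : Subgroup (Equiv.Perm (Fin n))) (ref : ℝ → ℝ) : Prop :=
  Tendsto (fun ε : ℝ => (EP (nm K) ε fun v => mt X d N n i G v) / lam ε - ref ε)
    (𝓝[>] 0) (𝓝 0)

/-- **The sum over disjoint extensions with the same group.** -/
theorem main_sum {κ : Type*} (S : Finset κ) (F : κ → Type) [∀ k, Field (F k)]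
    [∀ k, NumberField (F k)] [∀ k, Algebra K (F k)]
    (e : ∀ k, Fin n ≃ (F k →ₐ[K] AlgebraicClosure K)) (hG : ∀ k, HasGroup (e k) G)
    (hdis : ∀ k ∈ S, ∀ k' ∈ S, k ≠ k' → closure K (F k) ⊓ closure K (F k') = ⊥)
    (M : κ → ℕ) (B : κ → HeightOneSpectrum (𝓞 K) → ℂ[X])
    (hB : ∀ k, IsRestriction X d N (e k) i (M k) (B k)) {ref : ℝ → ℝ} (href : IsRef X d N i G ref)
    {η : ℝ} (hη : 0 < η) :
    ∀ᶠ ε : ℝ in 𝓝[>] 0, ∑ k ∈ S, (size i (B k) ε - ref ε) ^ 2 ≤
      ((Nat.card (ConjClasses G) : ℝ) - 1) * (betti d N n i : ℝ) ^ 2 + η := by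
  classical
  choose σ hσ using exists_isFrob (F := K)
  have hN : NormSys (nm K) := normSys
  refine core S (fun k => hom (e k) (hG k)) (fun k _ => hom_open (e k) (hG k))
    (fun k _ => hom_surj (e k) (hG k)) (fun k hk k' hk' hkk => by
      rw [hom_ker, hom_ker]
      exact ker_sup (hdis k hk k' hk' hkk)) σ hσ (fun h v => tt X d N n i h.1 v)
    (Nat.cast_nonneg _) (fun h v => abs_tt X d N n i h.1 v) (fun h g v => by
      have e1 : (((g * h * g⁻¹ : G)) : Equiv.Perm (Fin n)) = g.1 * h.1 * g.1⁻¹ := rfl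
      rw [e1, tt_conj]) (fun k ε => size i (B k) ε - ref ε) (fun k _ => ?_) hη
  have h1 := ((size_restriction (e k) (hB k) σ hσ).2).sub href
  rw [sub_zero] at h1
  refine h1.congr' ?_
  filter_upwards [self_mem_nhdsWithin] with ε hε
  have hε' : (0 : ℝ) < ε := hε
  have e2 : (fun v => tt X d N n i ((hom (e k) (hG k) (σ v) : G) : Equiv.Perm (Fin n)) v -
      (Fintype.card G : ℝ)⁻¹ * ∑ h : G, tt X d N n i h.1 v) =
      fun v => tt X d N n i (num (e k) (σ v)) v + (-1) * mt X d N n i G v := by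
    funext v
    rw [hom_apply]
    unfold mt
    ring
  have e3 : (EP (nm K) ε fun v => tt X d N n i ((hom (e k) (hG k) (σ v) : G) :
      Equiv.Perm (Fin n)) v - (Fintype.card G : ℝ)⁻¹ * ∑ h : G, tt X d N n i h.1 v) =
      (EP (nm K) ε fun v => tt X d N n i (num (e k) (σ v)) v) -
        EP (nm K) ε fun v => mt X d N n i G v := by
    rw [e2, EP_add hN hε' (fun v => abs_tt X d N n i _ v) (B' := betti d N n i) (fun v => by
      rw [abs_mul, abs_neg, abs_one, one_mul]
      exact abs_mt G v), EP_const_mul]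
    ring
  rw [e3]
  ring

/-- an exceptional extension -/
structure Exc (X : Set (MvPolynomial (Fin l) (𝓞 K))) (d : ℕ) (N : ℕ → ℕ) (n i : ℕ)
    (G : Subgroup (Equiv.Perm (Fin n))) (ref : ℝ → ℝ) (δ : ℝ) where
  F : Type
  [fF : Field F]
  [nF : NumberField F]
  [aF : Algebra K F]
  e : Fin n ≃ (F →ₐ[K] AlgebraicClosure K)
  M : ℕ
  B : HeightOneSpectrum (𝓞 K) → ℂ[X]
  hG : HasGroup e G
  hB : IsRestriction X d N e i M B
  hex : ∀ᶠ ε : ℝ in 𝓝[>] 0, δ ≤ |size i B ε - ref ε|

attribute [instance] Exc.fF Exc.nF Exc.aF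

/-- the number of disjoint exceptional extensions -/
theorem exc_bound {ref : ℝ → ℝ} (href : IsRef X d N i G ref) {δ : ℝ} (hδ : 0 < δ) {m : ℕ}
    (E : Fin m → Exc X d N n i G ref δ)
    (hE : ∀ k k', k ≠ k' → closure K (E k).F ⊓ closure K (E k').F = ⊥) :
    m ≤ ⌊((Nat.card (ConjClasses G) : ℝ) - 1) * (betti d N n i : ℝ) ^ 2 / δ ^ 2⌋₊ := by
  refine Nat.le_floor ?_
  rw [le_div_iff₀ (by positivity)]
  refine le_of_forall_pos_le_add fun η hη => ?_
  have h1 := main_sum Finset.univ (fun k => (E k).F) (fun k => (E k).e) (fun k => (E k).hG)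
    (fun k _ k' _ hkk => hE k k' hkk) (fun k => (E k).M) (fun k => (E k).B)
    (fun k => (E k).hB) href hη
  have h2 : ∀ᶠ ε : ℝ in 𝓝[>] 0, ∀ k, δ ≤ |size i (E k).B ε - ref ε| := by
    rw [Filter.eventually_all]
    exact fun k => (E k).hex
  obtain ⟨ε, h3, h4⟩ := (h1.and h2).exists
  refine le_trans ?_ h3
  calc (m : ℝ) * δ ^ 2 = ∑ _k : Fin m, δ ^ 2 := by
        rw [Finset.sum_const, Finset.card_univ, Fintype.card_fin, nsmul_eq_mul]
    _ ≤ ∑ k : Fin m, (size i (E k).B ε - ref ε) ^ 2 := by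
        refine Finset.sum_le_sum fun k _ => ?_
        rw [← sq_abs (size i (E k).B ε - ref ε)]
        exact pow_le_pow_left₀ hδ.le (h4 k) 2

/-- **One field for all extensions with the same group.** -/
theorem main_field {ref : ℝ → ℝ} (href : IsRef X d N i G ref) {δ : ℝ} (hδ : 0 < δ) :
    ∃ Mf : IntermediateField K (AlgebraicClosure K), FiniteDimensional K Mf ∧ IsGalois K Mf ∧
      Module.finrank K Mf ≤ Nat.card G ^
        ⌊((Nat.card (ConjClasses G) : ℝ) - 1) * (betti d N n i : ℝ) ^ 2 / δ ^ 2⌋₊ ∧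
      ∀ (F : Type) [Field F] [NumberField F] [Algebra K F]
        (e : Fin n ≃ (F →ₐ[K] AlgebraicClosure K)) (M : ℕ)
        (B : HeightOneSpectrum (𝓞 K) → ℂ[X]), HasGroup e G → closure K F ⊓ Mf = ⊥ →
        IsRestriction X d N e i M B → ∃ᶠ ε : ℝ in 𝓝[>] 0, |size i B ε - ref ε| < δ := by
  classical
  set L : ℕ := ⌊((Nat.card (ConjClasses G) : ℝ) - 1) * (betti d N n i : ℝ) ^ 2 / δ ^ 2⌋₊ with hL
  set P : ℕ → Prop := fun m => ∃ E : Fin m → Exc X d N n i G ref δ,
    ∀ k k', k ≠ k' → closure K (E k).F ⊓ closure K (E k').F = ⊥ with hP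
  have hP0 : P 0 := ⟨fun k => k.elim0, fun k => k.elim0⟩
  have hbd : ∀ m, P m → m ≤ L := fun m hm => by
    obtain ⟨E, hE⟩ := hm
    exact exc_bound href hδ E hE
  obtain ⟨m, hm, hmax⟩ : ∃ m, P m ∧ ¬ P (m + 1) := by
    by_contra hcon
    push Not at hcon
    have : ∀ m, P m := by
      intro m
      induction m with
      | zero => exact hP0
      | succ m ih => exact hcon m ih
    have := hbd (L + 1) (this _)
    omega
  obtain ⟨E, hE⟩ := hm
  have hmL := hbd m ⟨E, hE⟩
  set N' : Fin m → IntermediateField K (AlgebraicClosure K) := fun k => closure K (E k).F with hN'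
  have hfin : ∀ k, FiniteDimensional K (N' k) := fun k => closure_finite _
  have hnor : ∀ k, Normal K (N' k) := fun k => closure_normal _
  have hn : Normal K (⨆ k ∈ (Finset.univ : Finset (Fin m)), N' k :
      IntermediateField K (AlgebraicClosure K)) :=
    Pool.Agent.W353.TP.normal_biSup N' hnor Finset.univ
  refine ⟨⨆ k ∈ (Finset.univ : Finset (Fin m)), N' k,
    IntermediateField.finiteDimensional_iSup_of_finset, IsGalois.mk, ?_, ?_⟩
  · refine (Pool.Agent.W353.TP.finrank_iSup_le N' (Nat.card G) Finset.univ fun k _ =>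
      (finrank_closure (E k).e (E k).hG).le).trans ?_
    rw [Finset.card_univ, Fintype.card_fin]
    exact Nat.pow_le_pow_right Nat.card_pos hmL
  · intro F _ _ _ e M B hG hdis hB
    rw [Filter.Frequently]
    intro hev
    apply hmax
    have hev' : ∀ᶠ ε : ℝ in 𝓝[>] 0, δ ≤ |size i B ε - ref ε| :=
      hev.mono fun ε h => not_lt.1 h
    have hle : ∀ k, N' k ≤ ⨆ k ∈ (Finset.univ : Finset (Fin m)), N' k := fun k =>
      le_iSup₂ (f := fun k (_ : k ∈ (Finset.univ : Finset (Fin m))) => N' k) k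
        (Finset.mem_univ k)
    set E₀ : Exc X d N n i G ref δ := ⟨F, e, M, B, hG, hB, hev'⟩ with hE₀
    have hnew : ∀ k, closure K F ⊓ N' k = ⊥ := fun k =>
      le_bot_iff.1 (le_trans (inf_le_inf_left _ (hle k)) hdis.le)
    refine ⟨Fin.cons E₀ E, ?_⟩
    intro k
    refine Fin.cases ?_ (fun k => ?_) k
    · intro k'
      refine Fin.cases ?_ (fun k' => ?_) k'
      · intro h
        exact absurd rfl h
      · intro _
        exact hnew k'
    · intro k'
      refine Fin.cases ?_ (fun k' => ?_) k'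
      · intro _
        have h := hnew k
        rw [inf_comm] at h
        exact h
      · intro h
        exact hE k k' fun h' => h (congrArg Fin.succ h')

end

end Pool.Agent.Y149.WR
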