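import Pool.Agent.Y149.WR.Tr
import Pool.Agent.Y149.WR.Core
import Pool.Agent.Y149.WR.Fld
import Pool.Agent.Y149.Ord

/-! The sizes of the `L`-functions of the Weil restrictions and of the quotients. -/

set_option autoImplicit false

namespace Pool.Agent.Y149.WR

open Complex Filter Topology ComplexConjugate NumberField IsDedekindDomain Polynomial
open Pool.Agent.W540.BE Pool.Agent.W353.L1 Pool.Agent.W401.Cheb
open Pool.Agent.H341R2 (lam lam_tendsto)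
open Pool.Agent.W353.EF (LFun size perm closure)
open Pool.Agent.Y149.Ord (HasOrder)
open Pool.Agent.Y722.EP (size_plain EP_fin)
open Pool.Agent.W353.PV (pick pick_spec)

section
variable {K : Type} [Field K] [NumberField K]

theorem half_cast (i : ℕ) : (((i : ℝ) / 2 : ℝ) : ℂ) = (i : ℂ) / 2 := by
  push_cast; rfl

/-- the size from the traces -/
theorem size_sys {i M : ℕ} (B : HeightOneSpectrum (𝓞 K) → ℂ[X])
    (Tr : HeightOneSpectrum (𝓞 K) → ℂ)
    (h : ∀ᶠ v in cofinite, (Tr v).im = 0 ∧ ∃ γ : Fin M → ℂ,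
      (∀ j, ‖γ j‖ = (nm K v : ℝ) ^ ((i : ℝ) / 2)) ∧ ∑ j, γ j = Tr v ∧
      ∀ z : ℂ, (B v).eval z = ∏ j, (1 - γ j * z))
    (hB0 : ∀ v, (B v).eval (((nm K v : ℕ) : ℂ) ^ (-((i : ℂ) / 2 + 1))) ≠ 0)
    (t : HeightOneSpectrum (𝓞 K) → ℝ) {D : ℝ} (ht : ∀ v, |t v| ≤ D)
    (hTr : ∀ᶠ v in cofinite, t v = (Tr v).re * (nm K v : ℝ) ^ (-((i : ℝ) / 2))) :
    (∀ᶠ ε : ℝ in 𝓝[>] 0, LFun B ((i : ℂ) / 2 + 1 + ε) ≠ 0) ∧
    Tendsto (fun ε : ℝ => (EP (nm K) ε fun v => t v) / lam ε - size i B ε) (𝓝[>] 0) (𝓝 0) := by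
  set α : HeightOneSpectrum (𝓞 K) → Fin M → ℂ := fun v => pick fun γ =>
    (∀ j, ‖γ j‖ = (nm K v : ℝ) ^ ((i : ℝ) / 2)) ∧ ∑ j, γ j = Tr v ∧
      ∀ z : ℂ, (B v).eval z = ∏ j, (1 - γ j * z) with hα
  have hspec : ∀ᶠ v in cofinite, (Tr v).im = 0 ∧
      (∀ j, ‖α v j‖ = (nm K v : ℝ) ^ ((i : ℝ) / 2)) ∧ ∑ j, α v j = Tr v ∧
      ∀ z : ℂ, (B v).eval z = ∏ j, (1 - α v j * z) :=
    h.mono fun v hv => ⟨hv.1, pick_spec hv.2⟩
  have hS := size_plain ((i : ℝ) / 2) α B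
    (hspec.mono fun v hv => ⟨⟨hv.2.1, by rw [hv.2.2.1, hv.1]⟩, hv.2.2.2⟩) (by
      rw [half_cast]
      exact hB0)
  rw [half_cast] at hS
  refine ⟨hS.1, ?_⟩
  have hN : NormSys (nm K) := normSys
  have hb1 : ∀ v, |tr ((i : ℝ) / 2) α v| ≤ (M : ℝ) := fun v => abs_tr_le _ _ _
  have hb2 : ∀ v, |(-1) * t v| ≤ D := fun v => by rw [abs_mul, abs_neg, abs_one, one_mul]; exact ht v
  have h0 := EP_fin (φ := fun v => tr ((i : ℝ) / 2) α v + (-1) * t v) (B := M + D)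
    (fun v => (abs_add_le _ _).trans (add_le_add (hb1 v) (hb2 v))) (by
      filter_upwards [hspec, hTr] with v h1 h2
      have e : tr ((i : ℝ) / 2) α v = (Tr v).re * (nm K v : ℝ) ^ (-((i : ℝ) / 2)) := by
        unfold tr
        rw [if_pos ⟨h1.2.1, by rw [h1.2.2.1, h1.1]⟩, h1.2.2.1]
      rw [e, h2]
      ring)
  have h2 := hS.2.sub h0
  rw [sub_zero] at h2
  refine h2.congr' ?_
  filter_upwards [self_mem_nhdsWithin] with ε hε
  have hε' : (0 : ℝ) < ε := hε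
  rw [EP_add hN hε' hb1 hb2, EP_const_mul]
  unfold size
  ring

variable {l : ℕ} (X : Set (MvPolynomial (Fin l) (𝓞 K))) (d : ℕ) (N : ℕ → ℕ) (n i : ℕ)

open Classical in
/-- the chosen eigenvalues -/
noncomputable def xv (v : HeightOneSpectrum (𝓞 K)) : Letter d N → ℂ :=
  if h : ∃ x, IsEigen X d N v x then h.choose else 0

variable {X d N} in
theorem xv_spec {v : HeightOneSpectrum (𝓞 K)} (h : ∃ x, IsEigen X d N v x) :
    IsEigen X d N v (xv X d N v) := by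
  unfold xv
  rw [dif_pos h]
  exact h.choose_spec

open Classical in
/-- the normalised traces -/
noncomputable def tt (τ : Equiv.Perm (Fin n)) (v : HeightOneSpectrum (𝓞 K)) : ℝ :=
  if IsEigen X d N v (xv X d N v) then
    (T τ (xv X d N v) i).re * (nm K v : ℝ) ^ (-((i : ℝ) / 2))
  else 0

theorem nm_pos2 (v : HeightOneSpectrum (𝓞 K)) : (0 : ℝ) < nm K v := by
  have := two_le_nm v
  exact_mod_cast (by omega : 0 < nm K v)

theorem abs_tt (τ : Equiv.Perm (Fin n)) (v : HeightOneSpectrum (𝓞 K)) :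
    |tt X d N n i τ v| ≤ betti d N n i := by
  unfold tt
  split_ifs with h
  · have h1 := h.T_norm τ i
    have h2 := nm_pos2 v
    rw [abs_mul, abs_of_pos (Real.rpow_pos_of_pos h2 _), Real.rpow_neg h2.le]
    rw [← div_eq_mul_inv, div_le_iff₀ (Real.rpow_pos_of_pos h2 _)]
    exact (Complex.abs_re_le_norm _).trans h1
  · rw [abs_zero]
    exact Nat.cast_nonneg _

theorem tt_conj (τ π : Equiv.Perm (Fin n)) (v : HeightOneSpectrum (𝓞 K)) :
    tt X d N n i (π * τ * π⁻¹) v = tt X d N n i τ v := by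
  unfold tt
  rw [T_conj]

variable {X d N n i}

theorem one_pow_fun (x : Letter d N → ℂ) : (fun y => x y ^ 1) = x := by
  funext y
  rw [pow_one]

/-- **The size for a Weil restriction.** -/
theorem size_restriction {F : Type} [Field F] [NumberField F] [Algebra K F]
    (e : Fin n ≃ (F →ₐ[K] AlgebraicClosure K)) {M : ℕ} {B : HeightOneSpectrum (𝓞 K) → ℂ[X]}
    (hB : IsRestriction X d N e i M B) (σ : HeightOneSpectrum (𝓞 K) → GK K)
    (hσ : ∀ v, IsFrob v (σ v)) :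
    (∀ᶠ ε : ℝ in 𝓝[>] 0, LFun B ((i : ℂ) / 2 + 1 + ε) ≠ 0) ∧
    Tendsto (fun ε : ℝ => (EP (nm K) ε fun v => tt X d N n i (num e (σ v)) v) / lam ε -
      size i B ε) (𝓝[>] 0) (𝓝 0) := by
  refine size_sys (M := M) B (fun v => T (num e (σ v)) (xv X d N v) i) ?_ hB.2 _
    (fun v => abs_tt X d N n i _ v) ?_
  · refine hB.1.mono fun v hv => ?_
    obtain ⟨x, γ, h1, h2, h3, h4⟩ := hv
    have hx : IsEigen X d N v (xv X d N v) := xv_spec ⟨x, h1⟩
    refine ⟨hx.im _ _, γ, h2, ?_, h4⟩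
    have h5 := h3 (σ v) (hσ v) 1 le_rfl
    simp only [pow_one] at h5
    rw [h5]
    exact h1.T_eq hx _ _
  · refine hB.1.mono fun v hv => ?_
    obtain ⟨x, γ, h1, -⟩ := hv
    have hx : IsEigen X d N v (xv X d N v) := xv_spec ⟨x, h1⟩
    unfold tt
    rw [if_pos hx]

open Classical in
/-- the mean value of the traces over the group -/
noncomputable def mt (X : Set (MvPolynomial (Fin l) (𝓞 K))) (d : ℕ) (N : ℕ → ℕ) (n i : ℕ)
    (G : Subgroup (Equiv.Perm (Fin n))) (v : HeightOneSpectrum (𝓞 K)) : ℝ :=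
  (Fintype.card G : ℝ)⁻¹ * ∑ τ : G, tt X d N n i τ.1 v

theorem abs_mt (G : Subgroup (Equiv.Perm (Fin n))) (v : HeightOneSpectrum (𝓞 K)) :
    |mt X d N n i G v| ≤ betti d N n i := by
  classical
  unfold mt
  have hc : (0 : ℝ) < Fintype.card G := by exact_mod_cast Fintype.card_pos
  rw [abs_mul, abs_inv, Nat.abs_cast, inv_mul_le_iff₀ hc]
  refine (Finset.abs_sum_le_sum_abs _ _).trans ?_
  refine (Finset.sum_le_card_nsmul _ _ (betti d N n i : ℝ) fun τ _ => abs_tt X d N n i _ v).trans ?_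
  rw [nsmul_eq_mul, Finset.card_univ]

/-- **The size for a quotient.** -/
theorem size_quotient {G : Subgroup (Equiv.Perm (Fin n))} {M : ℕ}
    {B : HeightOneSpectrum (𝓞 K) → ℂ[X]} (hB : IsQuotient X d N G i M B) :
    (∀ᶠ ε : ℝ in 𝓝[>] 0, LFun B ((i : ℂ) / 2 + 1 + ε) ≠ 0) ∧
    Tendsto (fun ε : ℝ => (EP (nm K) ε fun v => mt X d N n i G v) / lam ε - size i B ε)
      (𝓝[>] 0) (𝓝 0) := by
  classical
  have hre : ∀ v, IsEigen X d N v (xv X d N v) →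
      ((Nat.card G : ℂ)⁻¹ * ∑ᶠ τ : G, T τ.1 (xv X d N v) i) =
        ((((Fintype.card G : ℝ)⁻¹ * ∑ τ : G, (T τ.1 (xv X d N v) i).re : ℝ)) : ℂ) := by
    intro v hx
    rw [finsum_eq_sum_of_fintype, Nat.card_eq_fintype_card]
    push_cast
    congr 1
    refine Finset.sum_congr rfl fun τ _ => ?_
    refine Complex.ext (by simp) ?_
    rw [hx.im]
    simp
  refine size_sys (M := M) B (fun v => (Nat.card G : ℂ)⁻¹ * ∑ᶠ τ : G, T τ.1 (xv X d N v) i) ?_
    hB.2 _ (fun v => abs_mt G v) ?_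
  · refine hB.1.mono fun v hv => ?_
    obtain ⟨x, γ, h1, h2, h3, h4⟩ := hv
    have hx : IsEigen X d N v (xv X d N v) := xv_spec ⟨x, h1⟩
    refine ⟨by rw [hre v hx, Complex.ofReal_im], γ, h2, ?_, h4⟩
    have h5 := h3 1 le_rfl
    simp only [pow_one] at h5
    rw [h5]
    congr 1
    refine finsum_congr fun τ => ?_
    exact h1.T_eq hx _ _
  · refine hB.1.mono fun v hv => ?_
    obtain ⟨x, γ, h1, -⟩ := hv
    have hx : IsEigen X d N v (xv X d N v) := xv_spec ⟨x, h1⟩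
    rw [hre v hx, Complex.ofReal_re]
    unfold mt tt
    simp only [if_pos hx]
    rw [← Finset.sum_mul]
    ring

/-- the order is the limit of the sizes -/
theorem ord_lim {i : ℕ} {B : HeightOneSpectrum (𝓞 K) → ℂ[X]} {r : ℤ}
    (_hne : ∀ᶠ ε : ℝ in 𝓝[>] 0, LFun B ((i : ℂ) / 2 + 1 + ε) ≠ 0) (hr : HasOrder i B r) :
    Tendsto (size i B) (𝓝[>] 0) (𝓝 (-(r : ℝ))) :=
  Pool.Agent.Y149.Ord.tendsto_size hr

end

end Pool.Agent.Y149.WR
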