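import Pool.Agent.Y149.WR.Tr

/-! The cohomology of the symmetric powers: the sum of the traces over all permutations. -/

set_option autoImplicit false

namespace Pool.Agent.Y149.WR

section
variable {n : ℕ}

theorem signOn_of_fix (τ : Equiv.Perm (Fin n)) (p : Fin n → Prop) (h : ∀ j, p j → τ j = j) :
    signOn τ p = 1 := by
  classical
  have hp : ∀ j, p (τ j) ↔ p j := by
    intro j
    constructor
    · intro h1
      have h2 := τ.injective (h _ h1)
      rwa [h2] at h1
    · intro h1
      rwa [h j h1]
  unfold signOn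
  rw [dif_pos hp]
  have : τ.subtypePerm hp = 1 := by
    refine Equiv.ext fun j => Subtype.ext ?_
    simp [Equiv.Perm.subtypePerm_apply, h j.1 j.2]
  rw [this, Equiv.Perm.sign_one]
  simp

theorem signOn_mul_swap (τ : Equiv.Perm (Fin n)) (p : Fin n → Prop) (hp : ∀ j, p (τ j) ↔ p j)
    {a b : Fin n} (hab : a ≠ b) (ha : p a) (hb : p b) :
    signOn (τ * Equiv.swap a b) p = -signOn τ p := by
  classical
  have hs : ∀ j, p (Equiv.swap a b j) ↔ p j := by
    intro j
    rcases eq_or_ne j a with rfl | h1
    · rw [Equiv.swap_apply_left]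
      exact iff_of_true hb ha
    · rcases eq_or_ne j b with rfl | h2
      · rw [Equiv.swap_apply_right]
        exact iff_of_true ha hb
      · rw [Equiv.swap_apply_of_ne_of_ne h1 h2]
  have hts : ∀ j, p ((τ * Equiv.swap a b) j) ↔ p j := by
    intro j
    rw [Equiv.Perm.mul_apply, hp, hs]
  unfold signOn
  rw [dif_pos hp, dif_pos hts]
  have e : (τ * Equiv.swap a b).subtypePerm hts =
      τ.subtypePerm hp * Equiv.swap (⟨a, ha⟩ : {j // p j}) ⟨b, hb⟩ := by
    refine Equiv.ext fun j => Subtype.ext ?_
    rw [Equiv.Perm.mul_apply, Equiv.Perm.subtypePerm_apply, Equiv.Perm.subtypePerm_apply]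
    simp only [Equiv.Perm.mul_apply]
    congr 1
    rcases eq_or_ne j ⟨a, ha⟩ with rfl | h1
    · rw [Equiv.swap_apply_left, Equiv.swap_apply_left]
    · rcases eq_or_ne j ⟨b, hb⟩ with rfl | h2
      · rw [Equiv.swap_apply_right, Equiv.swap_apply_right]
      · rw [Equiv.swap_apply_of_ne_of_ne h1 h2, Equiv.swap_apply_of_ne_of_ne]
        · exact fun h => h1 (Subtype.ext h)
        · exact fun h => h2 (Subtype.ext h)
  rw [e, map_mul, Equiv.Perm.sign_swap (fun h => hab (congrArg Subtype.val h))]
  push_cast
  ring

end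

section
variable {d : ℕ} {N : ℕ → ℕ} {n : ℕ}

/-- no letter of odd degree is repeated -/
def Good (w : Fin n → Letter d N) : Prop :=
  ∀ a b, w a = w b → Odd ((w a).1 : ℕ) → a = b

open Classical in
/-- the sum of the signs over the stabilizer -/
theorem sum_sgn (w : Fin n → Letter d N) :
    (∑ τ : Equiv.Perm (Fin n), if w ∘ τ = w then sgn τ w else 0) =
      if Good w then (((Finset.univ.filter fun τ : Equiv.Perm (Fin n) => w ∘ τ = w).card : ℕ) : ℂ)
      else 0 := by
  have hst : ∀ τ : Equiv.Perm (Fin n), w ∘ τ = w → ∀ j, w (τ j) = w j := fun τ h j =>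
    congrFun h j
  split_ifs with hw
  · rw [Finset.card_filter]
    push_cast
    refine Finset.sum_congr rfl fun τ _ => ?_
    split_ifs with h
    · rw [sgn_eq]
      refine signOn_of_fix _ _ fun j hj => ?_
      refine hw (τ j) j (hst τ h j) ?_
      rw [hst τ h j]
      exact hj
    · rfl
  · have hex : ∃ a b, w a = w b ∧ Odd ((w a).1 : ℕ) ∧ a ≠ b := by
      by_contra hcon
      push Not at hcon
      exact hw fun a b h1 h2 => hcon a b h1 h2
    obtain ⟨a, b, hab, hodd, hne⟩ := hex
    set S : ℂ := ∑ τ : Equiv.Perm (Fin n), if w ∘ τ = w then sgn τ w else 0 with hS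
    have hsw : w ∘ (Equiv.swap a b : Equiv.Perm (Fin n)) = w := by
      funext j
      rw [Function.comp_apply]
      rcases eq_or_ne j a with rfl | h1
      · rw [Equiv.swap_apply_left, hab]
      · rcases eq_or_ne j b with rfl | h2
        · rw [Equiv.swap_apply_right, hab]
        · rw [Equiv.swap_apply_of_ne_of_ne h1 h2]
    have h1 : S = -S := by
      conv_lhs => rw [hS, ← Equiv.sum_comp (Equiv.mulRight (Equiv.swap a b))]
      rw [hS, ← Finset.sum_neg_distrib]
      refine Finset.sum_congr rfl fun τ _ => ?_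
      rw [Equiv.coe_mulRight]
      have hiff : w ∘ (τ * Equiv.swap a b : Equiv.Perm (Fin n)) = w ↔ w ∘ τ = w := by
        rw [Equiv.Perm.coe_mul, ← Function.comp_assoc]
        constructor
        · intro h
          have h2 := congrArg (fun f => f ∘ (Equiv.swap a b : Equiv.Perm (Fin n))) h
          rw [hsw, Function.comp_assoc, ← Equiv.Perm.coe_mul, Equiv.swap_mul_self,
            Equiv.Perm.coe_one, Function.comp_id] at h2
          exact h2
        · intro h
          rw [h, hsw]
      by_cases h : w ∘ τ = w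
      · rw [if_pos (hiff.2 h), if_pos h, sgn_eq, sgn_eq]
        refine signOn_mul_swap τ _ (fun j => ?_) hne hodd (by rw [← hab]; exact hodd)
        rw [hst τ h j]
      · rw [if_neg fun h' => h (hiff.1 h'), if_neg h, neg_zero]
    have h2 : (2 : ℂ) * S = 0 := by linear_combination h1
    exact (mul_eq_zero.1 h2).resolve_left two_ne_zero

/-- the multiset of the letters of a word -/
def ms (w : Fin n → Letter d N) : Multiset (Letter d N) := Finset.univ.val.map w

theorem ms_card (w : Fin n → Letter d N) : (ms w).card = n := by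
  unfold ms
  rw [Multiset.card_map, Finset.card_val, Finset.card_univ, Fintype.card_fin]

theorem goodM_ms {i : ℕ} (w : Fin n → Letter d N) : GoodM i (ms w) ↔ Good w ∧ deg w = i := by
  unfold GoodM
  have e1 : ((ms w).map fun y => (y.1 : ℕ)).sum = deg w := by
    unfold ms deg
    rw [Multiset.map_map]
    rfl
  rw [e1]
  refine and_congr_left fun _ => ?_
  have e2 : ∀ y, (ms w).count y = (Finset.univ.filter fun a => y = w a).card := by
    intro y
    unfold ms
    rw [Multiset.count_map, Finset.card_def, Finset.filter_val]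
  constructor
  · intro h a b hab hodd
    have h1 := h (w a) hodd
    rw [e2, Finset.card_le_one] at h1
    exact h1 a (by simp) b (by simp [hab])
  · intro h y hy
    rw [e2, Finset.card_le_one]
    intro a ha b hb
    have ha' : y = w a := (Finset.mem_filter.1 ha).2
    have hb' : y = w b := (Finset.mem_filter.1 hb).2
    exact h a b (by rw [← ha', ← hb']) (by rw [← ha']; exact hy)

open Classical in
/-- the words with a given multiset -/
theorem sum_stab (w₀ : Fin n → Letter d N) :
    ∑ w : Fin n → Letter d N, (if ms w = ms w₀ then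
      (Finset.univ.filter fun τ : Equiv.Perm (Fin n) => w ∘ τ = w).card else 0) = n.factorial := by
  have h1 : ∀ w : Fin n → Letter d N, (if ms w = ms w₀ then
      (Finset.univ.filter fun τ : Equiv.Perm (Fin n) => w ∘ τ = w).card else 0) =
      (Finset.univ.filter fun τ : Equiv.Perm (Fin n) => w₀ ∘ τ = w).card := by
    intro w
    split_ifs with h
    · obtain ⟨ρ, hρ⟩ := perm_of_map h.symm
      refine Finset.card_bij (fun τ _ => (ρ : Equiv.Perm (Fin n)) * τ) ?_ ?_ ?_
      · intro τ hτ
        have h2 : w ∘ τ = w := (Finset.mem_filter.1 hτ).2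
        refine Finset.mem_filter.2 ⟨Finset.mem_univ _, ?_⟩
        rw [Equiv.Perm.coe_mul, ← Function.comp_assoc, ← hρ, h2]
      · intro τ _ τ' _ h2
        exact mul_left_cancel h2
      · intro τ hτ
        have h2 : w₀ ∘ τ = w := (Finset.mem_filter.1 hτ).2
        refine ⟨(ρ : Equiv.Perm (Fin n))⁻¹ * τ, Finset.mem_filter.2 ⟨Finset.mem_univ _, ?_⟩, ?_⟩
        · nth_rw 1 [hρ]
          rw [Function.comp_assoc, ← Equiv.Perm.coe_mul, mul_inv_cancel_left, h2]
        · exact mul_inv_cancel_left _ _
    · symm
      rw [Finset.card_eq_zero, Finset.filter_eq_empty_iff]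
      intro τ _ h2
      apply h
      rw [← h2]
      unfold ms
      rw [← Multiset.map_map]
      congr 1
      exact Multiset.map_univ_val_equiv τ
  rw [Finset.sum_congr rfl fun w _ => h1 w]
  have h2 := Finset.card_eq_sum_card_fiberwise (s := (Finset.univ : Finset (Equiv.Perm (Fin n))))
    (t := (Finset.univ : Finset (Fin n → Letter d N))) (f := fun τ : Equiv.Perm (Fin n) => w₀ ∘ (τ : Fin n → Fin n))
    (fun _ _ => Finset.mem_coe.2 (Finset.mem_univ _))
  rw [← h2, Finset.card_univ, Fintype.card_perm, Fintype.card_fin]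

/-- **The sum of the traces over all permutations**, if the product of the eigenvalues is the same
for all good words of the given degree. -/
theorem sum_T_const (x : Letter d N → ℂ) (i : ℕ) (Q : ℂ) (S : Finset (Multiset (Letter d N)))
    (hS : ∀ s : Multiset (Letter d N), s ∈ S ↔ s.card = n ∧ GoodM i s)
    (hx : ∀ s ∈ S, (s.map x).prod = Q) :
    ∑ τ : Equiv.Perm (Fin n), T τ x i = n.factorial * (S.card * Q) := by
  classical
  have e1 : ∀ τ : Equiv.Perm (Fin n), T τ x i = ∑ w : Fin n → Letter d N,
      if deg w = i then (∏ j, x (w j)) * (if w ∘ τ = w then sgn τ w else 0) else 0 := by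
    intro τ
    unfold T
    refine (Finset.sum_subtype (Finset.univ.filter fun w : Fin n → Letter d N =>
      w ∘ τ = w ∧ deg w = i) (p := fun w => w ∘ τ = w ∧ deg w = i) (fun w => by simp)
      (fun w => sgn τ w * ∏ j, x (w j))).symm.trans ?_
    rw [Finset.sum_filter]
    refine Finset.sum_congr rfl fun w _ => ?_
    by_cases h2 : w ∘ τ = w
    · by_cases h3 : deg w = i
      · rw [if_pos ⟨h2, h3⟩, if_pos h3, if_pos h2, mul_comm]
      · rw [if_neg fun h => h3 h.2, if_neg h3]
    · by_cases h3 : deg w = i
      · rw [if_neg fun h => h2 h.1, if_pos h3, if_neg h2, mul_zero]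
      · rw [if_neg fun h => h3 h.2, if_neg h3]
  rw [Finset.sum_congr rfl fun τ _ => e1 τ, Finset.sum_comm]
  have e2 : ∀ w : Fin n → Letter d N, (∑ τ : Equiv.Perm (Fin n),
      if deg w = i then (∏ j, x (w j)) * (if w ∘ τ = w then sgn τ w else 0) else 0) =
      ∑ s ∈ S, if ms w = s then
        Q * (((Finset.univ.filter fun τ : Equiv.Perm (Fin n) => w ∘ τ = w).card : ℕ) : ℂ)
        else 0 := by
    intro w
    rw [Finset.sum_ite_eq]
    by_cases h : ms w ∈ S
    · rw [if_pos h]
      obtain ⟨h1, h2⟩ := (goodM_ms w).1 ((hS _).1 h).2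
      have h3 : ∏ j, x (w j) = Q := by
        have := hx _ h
        unfold ms at this
        rw [Multiset.map_map] at this
        exact this
      simp only [if_pos h2]
      rw [← Finset.mul_sum, sum_sgn, if_pos h1, h3]
    · rw [if_neg h]
      by_cases h2 : deg w = i
      · simp only [if_pos h2]
        have h1 : ¬ Good w := fun h1 => h ((hS _).2 ⟨ms_card w, (goodM_ms w).2 ⟨h1, h2⟩⟩)
        rw [← Finset.mul_sum, sum_sgn, if_neg h1, mul_zero]
      · simp only [if_neg h2]
        rw [Finset.sum_const_zero]
  rw [Finset.sum_congr rfl fun w _ => e2 w, Finset.sum_comm]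
  have e3 : ∀ s ∈ S, (∑ w : Fin n → Letter d N, if ms w = s then
      Q * (((Finset.univ.filter fun τ : Equiv.Perm (Fin n) => w ∘ τ = w).card : ℕ) : ℂ)
      else 0) = Q * n.factorial := by
    intro s hs
    have hc := ((hS s).1 hs).1
    obtain ⟨w₀, hw₀⟩ : ∃ w₀ : Fin n → Letter d N, ms w₀ = s := by
      have : ∃ l : List (Letter d N), (l : Multiset (Letter d N)) = s := Quot.exists_rep s
      obtain ⟨l, hl⟩ := this
      have hlen : l.length = n := by
        rw [← Multiset.coe_card, hl, hc]
      subst hlen
      refine ⟨l.get, ?_⟩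
      rw [← hl]
      unfold ms
      have h3 : (Finset.univ : Finset (Fin l.length)).val = (List.finRange l.length : Multiset _) := rfl
      rw [h3, Multiset.map_coe]
      congr 1
      exact List.map_get_finRange l
    subst hw₀
    have h1 := sum_stab w₀
    have h2 : ((∑ w : Fin n → Letter d N, (if ms w = ms w₀ then
      (Finset.univ.filter fun τ : Equiv.Perm (Fin n) => w ∘ τ = w).card else 0) : ℕ) : ℂ) =
      (n.factorial : ℂ) := by rw [h1]
    rw [← h2]
    push_cast
    rw [Finset.mul_sum]
    refine Finset.sum_congr rfl fun w _ => ?_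
    split_ifs <;> simp
  rw [Finset.sum_congr rfl e3, Finset.sum_const, nsmul_eq_mul]
  ring

end

end Pool.Agent.Y149.WR
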