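import Pool.Agent.Y149.WR.Defs
import Pool.Agent.Y722.EP.Link

/-! The traces on the cohomology of a power. -/

set_option autoImplicit false

namespace Pool.Agent.Y149.WR

open NumberField IsDedekindDomain ComplexConjugate
open Pool.Agent.W353.PV (Eig)

section
variable {d : ℕ} {N : ℕ → ℕ} {n : ℕ}

theorem sgn_eq (τ : Equiv.Perm (Fin n)) (w : Fin n → Letter d N) :
    sgn τ w = signOn τ fun j => Odd ((w j).1 : ℕ) := rfl

theorem signOn_conj (τ π : Equiv.Perm (Fin n)) (p : Fin n → Prop) :
    signOn (π * τ * π⁻¹) p = signOn τ fun j => p (π j) := by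
  classical
  unfold signOn
  have hiff : (∀ j, p ((π * τ * π⁻¹) j) ↔ p j) ↔ ∀ j, p (π (τ j)) ↔ p (π j) := by
    constructor
    · intro h j
      have := h (π j)
      simpa [Equiv.Perm.mul_apply] using this
    · intro h j
      have := h (π⁻¹ j)
      simpa [Equiv.Perm.mul_apply] using this
  by_cases h : ∀ j, p (π (τ j)) ↔ p (π j)
  · rw [dif_pos (hiff.2 h), dif_pos h]
    congr 2
    have e : (π * τ * π⁻¹).subtypePerm (hiff.2 h) =
        (Equiv.subtypeEquiv (p := fun j => p (π j)) (q := p) π fun _ => Iff.rfl).permCongr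
          (τ.subtypePerm (p := fun j => p (π j)) h) := by
      refine Equiv.ext fun j => Subtype.ext ?_
      simp [Equiv.Perm.mul_apply, Equiv.permCongr_apply, Equiv.Perm.subtypePerm_apply]
    rw [e, Equiv.Perm.sign_permCongr]
  · rw [dif_neg fun h' => h (hiff.1 h'), dif_neg h]

theorem signOn_star (τ : Equiv.Perm (Fin n)) (p : Fin n → Prop) :
    conj (signOn τ p) = signOn τ p := by
  classical
  unfold signOn
  split_ifs
  · exact map_intCast (starRingEnd ℂ) _
  · rw [map_zero]

theorem norm_signOn (τ : Equiv.Perm (Fin n)) (p : Fin n → Prop) : ‖signOn τ p‖ ≤ 1 := by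
  classical
  unfold signOn
  split_ifs with h
  · rcases Int.units_eq_one_or (Equiv.Perm.sign (τ.subtypePerm h)) with h1 | h1 <;> rw [h1] <;> simp
  · simp

theorem deg_comp (w : Fin n → Letter d N) (π : Equiv.Perm (Fin n)) : deg (w ∘ π) = deg w := by
  unfold deg
  exact Equiv.sum_comp π fun j => ((w j).1 : ℕ)

/-- the trace is a class function -/
theorem T_conj (τ π : Equiv.Perm (Fin n)) (x : Letter d N → ℂ) (i : ℕ) :
    T (π * τ * π⁻¹) x i = T τ x i := by
  classical
  unfold T
  refine Finset.sum_equiv (M := ℂ) ?_ ?_ ?_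
  · exact
      { toFun := fun w => ⟨w.1 ∘ π, by
          obtain ⟨h1, h2⟩ := w.2
          refine ⟨?_, by rw [deg_comp, h2]⟩
          funext j
          have := congrFun h1 (π j)
          simpa [Equiv.Perm.mul_apply] using this⟩
        invFun := fun w => ⟨w.1 ∘ (π⁻¹ : Equiv.Perm (Fin n)), by
          obtain ⟨h1, h2⟩ := w.2
          refine ⟨?_, by rw [deg_comp, h2]⟩
          funext j
          have := congrFun h1 (π⁻¹ j)
          simpa [Equiv.Perm.mul_apply] using this⟩
        left_inv := fun w => by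
          refine Subtype.ext (funext fun j => ?_)
          simp
        right_inv := fun w => by
          refine Subtype.ext (funext fun j => ?_)
          simp }
  · intro w
    exact iff_of_true (Finset.mem_univ _) (Finset.mem_univ _)
  · intro w _
    simp only [Equiv.coe_fn_mk]
    rw [sgn_eq, sgn_eq, signOn_conj]
    congr 1
    exact (Equiv.prod_comp π fun j => x (w.1 j)).symm

/-- a change of the numbering of the eigenvalues -/
theorem T_reindex (τ : Equiv.Perm (Fin n)) (x : Letter d N → ℂ) (i : ℕ)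
    (ρ : Letter d N ≃ Letter d N) (hρ : ∀ y, (ρ y).1 = y.1) : T τ (x ∘ ρ) i = T τ x i := by
  classical
  unfold T
  have hρ' : ∀ y, (ρ.symm y).1 = y.1 := by
    intro y
    have := hρ (ρ.symm y)
    rw [Equiv.apply_symm_apply] at this
    exact this.symm
  refine Finset.sum_equiv (M := ℂ) ?_ ?_ ?_
  · exact
      { toFun := fun w => ⟨ρ ∘ w.1, by
          obtain ⟨h1, h2⟩ := w.2
          refine ⟨by rw [Function.comp_assoc, h1], Eq.trans ?_ h2⟩
          unfold deg
          exact Finset.sum_congr rfl fun j _ => by rw [Function.comp_apply, hρ]⟩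
        invFun := fun w => ⟨ρ.symm ∘ w.1, by
          obtain ⟨h1, h2⟩ := w.2
          refine ⟨by rw [Function.comp_assoc, h1], Eq.trans ?_ h2⟩
          unfold deg
          exact Finset.sum_congr rfl fun j _ => by rw [Function.comp_apply, hρ']⟩
        left_inv := fun w => by
          refine Subtype.ext (funext fun j => ?_)
          simp
        right_inv := fun w => by
          refine Subtype.ext (funext fun j => ?_)
          simp }
  · intro w
    exact iff_of_true (Finset.mem_univ _) (Finset.mem_univ _)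
  · intro w _
    simp only [Equiv.coe_fn_mk, Function.comp_apply]
    rw [sgn_eq, sgn_eq]
    congr 2
    funext j
    simp only [Function.comp_apply, hρ]

theorem T_star (τ : Equiv.Perm (Fin n)) (x : Letter d N → ℂ) (i : ℕ) :
    conj (T τ x i) = T τ (fun y => conj (x y)) i := by
  classical
  unfold T
  rw [map_sum]
  refine Finset.sum_congr rfl fun w _ => ?_
  rw [map_mul, map_prod, sgn_eq, signOn_star]

/-- two lists with the same multiset -/
theorem perm_of_map {α : Type*} {m : ℕ} {f g : Fin m → α}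
    (h : Finset.univ.val.map f = Finset.univ.val.map g) : ∃ ρ : Fin m ≃ Fin m, g = f ∘ ρ := by
  classical
  have hc : ∀ z, Nonempty ({a // g a = z} ≃ {b // f b = z}) := by
    intro z
    have h1 := congrArg (Multiset.count z) h
    rw [Multiset.count_map, Multiset.count_map] at h1
    refine ⟨Fintype.equivOfCardEq ?_⟩
    rw [Fintype.card_subtype, Fintype.card_subtype]
    have e : ∀ u : Fin m → α, (Finset.univ.filter fun a => u a = z).card =
        (Multiset.filter (fun a => z = u a) (Finset.univ : Finset (Fin m)).val).card := by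
      intro u
      rw [Finset.card_def, Finset.filter_val]
      congr 1
      exact Multiset.filter_congr fun a _ => eq_comm
    rw [e, e]
    exact h1.symm
  let e := fun z => (hc z).some
  refine ⟨Equiv.ofFiberEquiv (f := g) (g := f) e, ?_⟩
  funext a
  exact (Equiv.ofFiberEquiv_map e a).symm

variable {K : Type} [Field K] [NumberField K] {l : ℕ} {X : Set (MvPolynomial (Fin l) (𝓞 K))}
  {v : HeightOneSpectrum (𝓞 K)}

theorem IsEigen.eig {x : Letter d N → ℂ} (h : IsEigen X d N v x) (a : Fin (2 * d + 1)) :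
    Eig X d a v fun j : Fin (N a) => x ⟨a, j⟩ := h a

theorem IsEigen.norm {x : Letter d N → ℂ} (h : IsEigen X d N v x) (y : Letter d N) :
    ‖x y‖ = (Ideal.absNorm v.asIdeal : ℝ) ^ (((y.1 : ℕ) : ℝ) / 2) :=
  (h.eig y.1).norm y.2

/-- the eigenvalues are unique up to the numbering -/
theorem IsEigen.perm {x y : Letter d N → ℂ} (hx : IsEigen X d N v x) (hy : IsEigen X d N v y) :
    ∃ ρ : Letter d N ≃ Letter d N, (∀ z, (ρ z).1 = z.1) ∧ y = x ∘ ρ := by
  have h : ∀ a : Fin (2 * d + 1), ∃ ρ : Fin (N a) ≃ Fin (N a),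
      (fun j => y ⟨a, j⟩) = (fun j => x ⟨a, j⟩) ∘ ρ := fun a =>
    perm_of_map ((hx.eig a).unique' (by have := a.2; omega) (hy.eig a))
  choose ρ hρ using h
  refine ⟨Equiv.sigmaCongrRight ρ, fun z => rfl, ?_⟩
  funext z
  exact congrFun (hρ z.1) z.2

theorem IsEigen.T_eq {x y : Letter d N → ℂ} (hx : IsEigen X d N v x) (hy : IsEigen X d N v y)
    (τ : Equiv.Perm (Fin n)) (i : ℕ) : T τ x i = T τ y i := by
  obtain ⟨ρ, h1, h2⟩ := hx.perm hy
  rw [h2, T_reindex τ x i ρ h1]

theorem IsEigen.conj {x : Letter d N → ℂ} (hx : IsEigen X d N v x) :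
    IsEigen X d N v fun y => conj (x y) := fun a => (hx.eig a).conj

/-- the traces are real -/
theorem IsEigen.im {x : Letter d N → ℂ} (hx : IsEigen X d N v x)
    (τ : Equiv.Perm (Fin n)) (i : ℕ) : (T τ x i).im = 0 := by
  have h := T_star τ x i
  rw [← hx.T_eq hx.conj τ i] at h
  exact Complex.conj_eq_iff_im.1 h

/-- the bound for the traces -/
theorem IsEigen.T_norm {x : Letter d N → ℂ} (hx : IsEigen X d N v x)
    (τ : Equiv.Perm (Fin n)) (i : ℕ) :
    ‖T τ x i‖ ≤ betti d N n i * (Ideal.absNorm v.asIdeal : ℝ) ^ ((i : ℝ) / 2) := by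
  classical
  have hq : (0 : ℝ) < Ideal.absNorm v.asIdeal := by
    have := Pool.Agent.W353.PV.one_lt_norm v
    linarith
  have hw : ∀ w : {w : Fin n → Letter d N // w ∘ τ = w ∧ deg w = i},
      ‖sgn τ w.1 * ∏ j, x (w.1 j)‖ ≤ (Ideal.absNorm v.asIdeal : ℝ) ^ ((i : ℝ) / 2) := by
    intro w
    rw [norm_mul, norm_prod, sgn_eq]
    have e : ∏ j, ‖x (w.1 j)‖ = (Ideal.absNorm v.asIdeal : ℝ) ^ ((i : ℝ) / 2) := by
      have h1 : ∀ j, ‖x (w.1 j)‖ =
          (Ideal.absNorm v.asIdeal : ℝ) ^ ((((w.1 j).1 : ℕ) : ℝ) / 2) := fun j => hx.norm _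
      rw [Finset.prod_congr rfl fun j _ => h1 j, ← Real.rpow_sum_of_pos hq]
      congr 1
      rw [← Finset.sum_div]
      congr 1
      have h2 : ((deg w.1 : ℕ) : ℝ) = i := congrArg Nat.cast w.2.2
      rw [← h2]
      unfold deg
      push_cast
      rfl
    rw [e]
    calc ‖signOn τ fun j => Odd ((w.1 j).1 : ℕ)‖ * (Ideal.absNorm v.asIdeal : ℝ) ^ ((i : ℝ) / 2)
        ≤ 1 * (Ideal.absNorm v.asIdeal : ℝ) ^ ((i : ℝ) / 2) :=
          mul_le_mul_of_nonneg_right (norm_signOn _ _) (by positivity)
      _ = _ := one_mul _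
  unfold T
  refine (norm_sum_le _ _).trans ((Finset.sum_le_sum fun w _ => hw w).trans ?_)
  rw [Finset.sum_const, nsmul_eq_mul]
  refine mul_le_mul_of_nonneg_right ?_ (by positivity)
  unfold betti
  rw [Nat.card_eq_fintype_card, Finset.card_univ]
  exact_mod_cast Fintype.card_le_of_injective
    (fun w : {w : Fin n → Letter d N // w ∘ τ = w ∧ deg w = i} =>
      (⟨w.1, w.2.2⟩ : {w : Fin n → Letter d N // deg w = i}))
    (fun w w' h => Subtype.ext (congrArg (fun u : {w : Fin n → Letter d N // deg w = i} => u.1) h))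

end

end Pool.Agent.Y149.WR
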