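import Pool.Agent.Y149.WR.SymP
import Pool.Agent.Y149.WR.Main

/-! Varieties with two-dimensional odd cohomology. -/

set_option autoImplicit false

namespace Pool.Agent.Y149.WR

open Complex Filter Topology ComplexConjugate NumberField IsDedekindDomain Polynomial
open Pool.Agent.W540.BE Pool.Agent.W353.L1 Pool.Agent.W401.Cheb
open Pool.Agent.H341R2 (lam lam_tendsto)
open Pool.Agent.W353.EF (LFun size perm closure)

section
variable {d : ℕ} {N : ℕ → ℕ}

theorem prod_even {x : Letter d N → ℂ} {q : ℂ}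
    (hx : ∀ y, Even (y.1 : ℕ) → x y = q ^ ((y.1 : ℕ) / 2)) (s : Multiset (Letter d N))
    (hs : ∀ y ∈ s, Even (y.1 : ℕ)) :
    ∃ M, (s.map fun y => (y.1 : ℕ)).sum = 2 * M ∧ (s.map x).prod = q ^ M := by
  induction s using Multiset.induction_on with
  | empty => exact ⟨0, by simp, by simp⟩
  | cons y s ih =>
    obtain ⟨M, h1, h2⟩ := ih fun z hz => hs z (Multiset.mem_cons_of_mem hz)
    have hy := hs y (Multiset.mem_cons_self y s)
    refine ⟨(y.1 : ℕ) / 2 + M, ?_, ?_⟩
    · rw [Multiset.map_cons, Multiset.sum_cons, h1]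
      obtain ⟨k, hk⟩ := hy
      omega
    · rw [Multiset.map_cons, Multiset.prod_cons, h2, hx y hy, pow_add]

theorem prod_two {x : Letter d N → ℂ} {q : ℂ} {y₁ y₂ : Letter d N} (hne : y₁ ≠ y₂)
    (ho : Odd (y₁.1 : ℕ)) (h12 : y₂.1 = y₁.1)
    (hev : ∀ y : Letter d N, y ≠ y₁ → y ≠ y₂ → Even (y.1 : ℕ))
    (hx : ∀ y, Even (y.1 : ℕ) → x y = q ^ ((y.1 : ℕ) / 2))
    (hx12 : x y₁ * x y₂ = q ^ (y₁.1 : ℕ)) {m : ℕ} {s : Multiset (Letter d N)}
    (hs : GoodM (2 * m) s) : (s.map x).prod = q ^ m := by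
  classical
  have ho2 : Odd (y₂.1 : ℕ) := by rw [h12]; exact ho
  set t := s.filter fun y => ¬ Even (y.1 : ℕ) with ht
  set u := s.filter fun y => Even (y.1 : ℕ) with hu
  have hsu : s = u + t := (Multiset.filter_add_not _ s).symm
  obtain ⟨M, hM1, hM2⟩ := prod_even hx u fun y hy => (Multiset.mem_filter.1 hy).2
  set c₁ := s.count y₁ with hc₁
  set c₂ := s.count y₂ with hc₂
  have hc1 : c₁ ≤ 1 := hs.1 y₁ ho
  have hc2 : c₂ ≤ 1 := hs.1 y₂ ho2
  have htc : t = Multiset.replicate c₁ y₁ + Multiset.replicate c₂ y₂ := by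
    refine Multiset.ext.2 fun y => ?_
    rw [Multiset.count_add, Multiset.count_replicate, Multiset.count_replicate, ht]
    by_cases h1 : y = y₁
    · subst h1
      rw [Multiset.count_filter_of_pos
          (p := fun y : Letter d N => ¬ Even (y.1 : ℕ)) (Nat.not_even_iff_odd.2 ho), if_pos rfl, if_neg hne.symm,
        add_zero]
    · by_cases h2 : y = y₂
      · subst h2
        rw [Multiset.count_filter_of_pos
          (p := fun y : Letter d N => ¬ Even (y.1 : ℕ)) (Nat.not_even_iff_odd.2 ho2), if_pos rfl, if_neg hne,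
          zero_add]
      · rw [Multiset.count_filter_of_neg
          (p := fun y : Letter d N => ¬ Even (y.1 : ℕ)) (fun h => h (hev y h1 h2)), if_neg (Ne.symm h1),
          if_neg (Ne.symm h2)]
  have hsum : 2 * M + (c₁ + c₂) * (y₁.1 : ℕ) = 2 * m := by
    have h := hs.2
    rw [hsu, Multiset.map_add, Multiset.sum_add, hM1, htc, Multiset.map_add, Multiset.sum_add,
      Multiset.map_replicate, Multiset.map_replicate, Multiset.sum_replicate,
      Multiset.sum_replicate, h12] at h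
    simp only [smul_eq_mul] at h
    rw [← h]
    ring
  have hprod : (s.map x).prod = q ^ M * (x y₁ ^ c₁ * x y₂ ^ c₂) := by
    rw [hsu, Multiset.map_add, Multiset.prod_add, hM2, htc, Multiset.map_add, Multiset.prod_add,
      Multiset.map_replicate, Multiset.map_replicate, Multiset.prod_replicate,
      Multiset.prod_replicate]
  rw [hprod]
  obtain ⟨k, hk⟩ := ho
  have h1 : c₁ = 0 ∨ c₁ = 1 := by omega
  have h2 : c₂ = 0 ∨ c₂ = 1 := by omega
  rcases h1 with h1 | h1 <;> rcases h2 with h2 | h2 <;> rw [h1, h2] at hsum ⊢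
  · have : M = m := by omega
    rw [this, pow_zero, pow_zero, mul_one, mul_one]
  · exfalso
    omega
  · exfalso
    omega
  · rw [pow_one, pow_one, hx12, ← pow_add]
    congr 1
    omega

theorem exists_S (d : ℕ) (N : ℕ → ℕ) (n i : ℕ) : ∃ S : Finset (Multiset (Letter d N)),
    (∀ s : Multiset (Letter d N), s ∈ S ↔ s.card = n ∧ GoodM i s) ∧
      S.card = symBetti d N n i := by
  classical
  have hfin0 : Finite {s : Multiset (Letter d N) // s.card = n} :=
    inferInstanceAs (Finite (Sym (Letter d N) n))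
  have hfin : {s : Multiset (Letter d N) | s.card = n ∧ GoodM i s}.Finite := by
    refine Set.Finite.subset (s := {s : Multiset (Letter d N) | s.card = n}) ?_ fun s hs => hs.1
    exact @Set.toFinite _ _ hfin0
  refine ⟨hfin.toFinset, fun s => by simp, ?_⟩
  rw [symBetti, ← Set.ncard_eq_toFinset_card _ hfin]
  rfl

end

section
variable {K : Type} [Field K] [NumberField K] {l : ℕ} {X : Set (MvPolynomial (Fin l) (𝓞 K))}
  {d : ℕ} {N : ℕ → ℕ}

/-- the mean value of the traces over all permutations -/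
theorem mt_two (hX : IsTwo X d N) (n m : ℕ) :
    ∀ᶠ v in cofinite, mt X d N n (2 * m) (⊤ : Subgroup (Equiv.Perm (Fin n))) v =
      symBetti d N n (2 * m) := by
  classical
  obtain ⟨y₁, y₂, hne, ho, h12, hev, hv⟩ := hX
  obtain ⟨S, hS, hSc⟩ := exists_S d N n (2 * m)
  refine hv.mono fun v hv => ?_
  obtain ⟨x, h1, h2, h3⟩ := hv
  have hx : IsEigen X d N v (xv X d N v) := xv_spec ⟨x, h1⟩
  have hq := nm_pos2 v
  have hsum := sum_T_const (n := n) x (2 * m) ((Ideal.absNorm v.asIdeal : ℂ) ^ m) S hS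
    fun s hs => prod_two hne ho h12 hev h2 h3 ((hS s).1 hs).2
  have e1 : ∑ τ : (⊤ : Subgroup (Equiv.Perm (Fin n))), tt X d N n (2 * m) τ.1 v =
      ∑ τ : Equiv.Perm (Fin n), tt X d N n (2 * m) τ v :=
    Fintype.sum_equiv Subgroup.topEquiv.toEquiv _ _ fun τ => rfl
  have e2 : ∑ τ : Equiv.Perm (Fin n), tt X d N n (2 * m) τ v =
      n.factorial * (symBetti d N n (2 * m) : ℝ) := by
    have e3 : ∀ τ : Equiv.Perm (Fin n), tt X d N n (2 * m) τ v =
        (T τ x (2 * m)).re * (nm K v : ℝ) ^ (-(((2 * m : ℕ) : ℝ) / 2)) := by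
      intro τ
      unfold tt
      rw [if_pos hx, hx.T_eq h1]
    rw [Finset.sum_congr rfl fun τ _ => e3 τ, ← Finset.sum_mul, ← Complex.re_sum, hsum, hSc]
    have e4 : ((n.factorial : ℂ) * ((symBetti d N n (2 * m) : ℂ) *
        (Ideal.absNorm v.asIdeal : ℂ) ^ m)) =
        (((n.factorial : ℝ) * ((symBetti d N n (2 * m) : ℝ) * (nm K v : ℝ) ^ m) : ℝ) : ℂ) := by
      push_cast
      rfl
    rw [e4, Complex.ofReal_re, Real.rpow_neg hq.le]
    have e5 : (nm K v : ℝ) ^ (((2 * m : ℕ) : ℝ) / 2) = (nm K v : ℝ) ^ m := by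
      rw [← Real.rpow_natCast]
      congr 1
      push_cast
      ring
    rw [e5]
    have h0 : (nm K v : ℝ) ^ m ≠ 0 := by positivity
    field_simp
  unfold mt
  rw [e1, e2]
  have e6 : Fintype.card (⊤ : Subgroup (Equiv.Perm (Fin n))) = n.factorial := by
    rw [Fintype.card_congr Subgroup.topEquiv.toEquiv, Fintype.card_perm, Fintype.card_fin]
  rw [e6]
  have h0 : (n.factorial : ℝ) ≠ 0 := by exact_mod_cast Nat.factorial_ne_zero n
  field_simp

theorem ref_two (hX : IsTwo X d N) (n m : ℕ) :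
    IsRef X d N (2 * m) (⊤ : Subgroup (Equiv.Perm (Fin n)))
      fun _ => (symBetti d N n (2 * m) : ℝ) := by
  unfold IsRef
  set b : ℝ := ((symBetti d N n (2 * m) : ℕ) : ℝ) with hb
  have hN : NormSys (nm K) := normSys
  have hb1 : ∀ v : HeightOneSpectrum (𝓞 K), |(-b)| ≤ |b| := fun v => by rw [abs_neg]
  have h0 := Pool.Agent.Y722.EP.EP_fin (K := K)
    (φ := fun v => mt X d N n (2 * m) (⊤ : Subgroup (Equiv.Perm (Fin n))) v + (-b))
    (B := betti d N n (2 * m) + |b|)
    (fun v => (abs_add_le _ _).trans (add_le_add (abs_mt _ v) (hb1 v))) (by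
      refine (mt_two hX n m).mono fun v hv => ?_
      rw [hv, add_neg_cancel])
  have h1 := (h0.add ((EP_one K).const_mul b)).sub_const b
  have e0 : (0 : ℝ) + b * 1 - b = 0 := by ring
  rw [e0] at h1
  refine h1.congr' ?_
  filter_upwards [self_mem_nhdsWithin] with ε hε
  have hε' : (0 : ℝ) < ε := hε
  rw [EP_add hN hε' (fun v => abs_mt _ v) hb1]
  have e1 : (EP (nm K) ε fun _ : HeightOneSpectrum (𝓞 K) => -b) =
      (-b) * EP (nm K) ε fun _ => 1 := by
    rw [← EP_const_mul]
    simp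
  rw [e1]
  ring

end

/-! ### elliptic curves -/

section

abbrev LE : Type := Letter 1 (Nat.choose 2)

def l0 : LE := ⟨0, ⟨0, by decide⟩⟩
def l1 : LE := ⟨1, ⟨0, by decide⟩⟩
def l2 : LE := ⟨1, ⟨1, by decide⟩⟩
def l3 : LE := ⟨2, ⟨0, by decide⟩⟩

theorem sum_LE (f : LE → ℕ) : ∑ y, f y = f l0 + f l1 + f l2 + f l3 := by
  rw [Fintype.sum_sigma, Fin.sum_univ_three]
  have e0 : ∑ j : Fin (Nat.choose 2 ((0 : Fin 3) : ℕ)), f ⟨0, j⟩ = f l0 :=
    Fintype.sum_unique (ι := Fin 1) fun j => f ⟨0, j⟩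
  have e1 : ∑ j : Fin (Nat.choose 2 ((1 : Fin 3) : ℕ)), f ⟨1, j⟩ = f l1 + f l2 :=
    Fin.sum_univ_two fun j : Fin 2 => f ⟨1, j⟩
  have e2 : ∑ j : Fin (Nat.choose 2 ((2 : Fin 3) : ℕ)), f ⟨2, j⟩ = f l3 :=
    Fintype.sum_unique (ι := Fin 1) fun j => f ⟨2, j⟩
  rw [e0, e1, e2]
  ring

theorem cases_LE (y : LE) : y = l0 ∨ y = l1 ∨ y = l2 ∨ y = l3 := by
  revert y
  decide

theorem sum_count (s : Multiset LE) (f : LE → ℕ) :
    (s.map f).sum = ∑ y, s.count y * f y := by
  induction s using Multiset.induction_on with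
  | empty => simp
  | cons a s ih =>
    rw [Multiset.map_cons, Multiset.sum_cons, ih]
    have e : ∀ y, (a ::ₘ s).count y * f y = s.count y * f y + if y = a then f y else 0 := by
      intro y
      rw [Multiset.count_cons]
      split_ifs <;> ring
    rw [Finset.sum_congr rfl fun y _ => e y, Finset.sum_add_distrib, Finset.sum_ite_eq',
      if_pos (Finset.mem_univ _)]
    ring

/-- the multiset with given numbers of letters -/
def mk (c0 c1 c2 c3 : ℕ) : Multiset LE :=
  Multiset.replicate c0 l0 + Multiset.replicate c1 l1 + Multiset.replicate c2 l2 +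
    Multiset.replicate c3 l3

theorem count_mk (c0 c1 c2 c3 : ℕ) : (mk c0 c1 c2 c3).count l0 = c0 ∧
    (mk c0 c1 c2 c3).count l1 = c1 ∧ (mk c0 c1 c2 c3).count l2 = c2 ∧
    (mk c0 c1 c2 c3).count l3 = c3 := by
  have h01 : l0 ≠ l1 := by decide
  have h02 : l0 ≠ l2 := by decide
  have h03 : l0 ≠ l3 := by decide
  have h12 : l1 ≠ l2 := by decide
  have h13 : l1 ≠ l3 := by decide
  have h23 : l2 ≠ l3 := by decide
  unfold mk
  simp only [Multiset.count_add, Multiset.count_replicate]
  simp [h01, h02, h03, h12, h13, h23, h01.symm, h02.symm, h03.symm, h12.symm, h13.symm, h23.symm]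

theorem eq_mk (s : Multiset LE) : s = mk (s.count l0) (s.count l1) (s.count l2) (s.count l3) := by
  refine Multiset.ext.2 fun y => ?_
  obtain ⟨h0, h1, h2, h3⟩ := count_mk (s.count l0) (s.count l1) (s.count l2) (s.count l3)
  rcases cases_LE y with rfl | rfl | rfl | rfl
  · rw [h0]
  · rw [h1]
  · rw [h2]
  · rw [h3]

theorem good_iff (s : Multiset LE) (n m : ℕ) : (s.card = n ∧ GoodM (2 * m) s) ↔
    (s.count l0 + s.count l1 + s.count l2 + s.count l3 = n ∧ s.count l1 ≤ 1 ∧ s.count l2 ≤ 1 ∧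
      s.count l1 + s.count l2 + 2 * s.count l3 = 2 * m) := by
  have hc : s.card = s.count l0 + s.count l1 + s.count l2 + s.count l3 := by
    rw [← sum_LE fun y => s.count y]
    exact (Multiset.sum_count_eq_card fun a _ => Finset.mem_univ a).symm
  have hd : (s.map fun y : LE => (y.1 : ℕ)).sum =
      s.count l1 + s.count l2 + 2 * s.count l3 := by
    rw [sum_count, sum_LE]
    have e0 : ((l0.1 : Fin 3) : ℕ) = 0 := rfl
    have e1 : ((l1.1 : Fin 3) : ℕ) = 1 := rfl
    have e2 : ((l2.1 : Fin 3) : ℕ) = 1 := rfl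
    have e3 : ((l3.1 : Fin 3) : ℕ) = 2 := rfl
    simp only [e0, e1, e2, e3]
    ring
  unfold GoodM
  rw [hc, hd]
  refine and_congr_right fun _ => ?_
  rw [← and_assoc]
  refine and_congr_left fun _ => ?_
  constructor
  · intro h
    exact ⟨h l1 (by decide), h l2 (by decide)⟩
  · rintro ⟨h1, h2⟩ y hy
    rcases cases_LE y with rfl | rfl | rfl | rfl
    · exact absurd hy (by decide)
    · exact h1
    · exact h2
    · exact absurd hy (by decide)

/-- the even Betti numbers of the symmetric powers of an elliptic curve -/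
theorem symBetti_E {n m : ℕ} (hm : 1 ≤ m) (hmn : m < n) :
    symBetti 1 (Nat.choose 2) n (2 * m) = 2 := by
  classical
  obtain ⟨S, hS, hSc⟩ := exists_S 1 (Nat.choose 2) n (2 * m)
  rw [← hSc]
  have e : S = {mk (n - m) 0 0 m, mk (n - m - 1) 1 1 (m - 1)} := by
    ext s
    rw [hS, good_iff, Finset.mem_insert, Finset.mem_singleton]
    constructor
    · rintro ⟨h1, h2, h3, h4⟩
      have h5 : s.count l1 = 0 ∨ s.count l1 = 1 := by omega
      rcases h5 with h5 | h5
      · left
        have h6 : s.count l2 = 0 := by omega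
        have h7 : s.count l3 = m := by omega
        have h8 : s.count l0 = n - m := by omega
        rw [eq_mk s, h5, h6, h7, h8]
      · right
        have h6 : s.count l2 = 1 := by omega
        have h7 : s.count l3 = m - 1 := by omega
        have h8 : s.count l0 = n - m - 1 := by omega
        rw [eq_mk s, h5, h6, h7, h8]
    · rintro (h | h) <;> subst h
      · obtain ⟨h0, h1, h2, h3⟩ := count_mk (n - m) 0 0 m
        rw [h0, h1, h2, h3]
        omega
      · obtain ⟨h0, h1, h2, h3⟩ := count_mk (n - m - 1) 1 1 (m - 1)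
        rw [h0, h1, h2, h3]
        omega
  rw [e, Finset.card_pair]
  intro h
  have h1 := (count_mk (n - m) 0 0 m).2.1
  rw [h, (count_mk (n - m - 1) 1 1 (m - 1)).2.1] at h1
  exact one_ne_zero h1

end

end Pool.Agent.Y149.WR
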